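import Pool.Agent.Helper61.EF.Final

/-!
PROJECT VL (MP_18e8f0_an): bound of the vorticity of connecting flows in `L¹`. Definitions and algebra.

A real linear map `L` of the plane `ℂ` is `L z = al L * z + be L * conj z`.
-/

set_option autoImplicit false

namespace Pool.Agent.Helper5.VL

open Complex MeasureTheory Set Pool.Agent.Helper61.EF ComplexConjugate

/-- The conformal part of a real linear map of the plane. -/
noncomputable def al (L : ℂ →L[ℝ] ℂ) : ℂ := (L 1 - I * L I) / 2

/-- The anticonformal part of a real linear map of the plane. -/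
noncomputable def be (L : ℂ →L[ℝ] ℂ) : ℂ := (L 1 + I * L I) / 2

theorem apply_eq (L : ℂ →L[ℝ] ℂ) (z : ℂ) : L z = al L * z + be L * conj z := by
  have h1 : L z = z.re * L 1 + z.im * L I := by
    conv_lhs => rw [show z = z.re • (1 : ℂ) + z.im • I by
      apply Complex.ext <;> simp]
    rw [map_add, map_smul, map_smul]
    simp only [real_smul]
  have h2 : z = z.re + z.im * I := (re_add_im z).symm
  have h3 : conj z = z.re - z.im * I := by
    apply Complex.ext <;> simp
  rw [h1, h3]
  conv_rhs => rw [h2]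
  unfold al be
  simp only [add_re, ofReal_re, mul_re, I_re, mul_zero, ofReal_im, I_im, mul_one, sub_self,
    add_zero, add_im, mul_im, zero_add]
  linear_combination ((z.im : ℂ) * L I) * I_mul_I

theorem al_comp (L M : ℂ →L[ℝ] ℂ) : al (L.comp M) = al L * al M + be L * conj (be M) := by
  have h1 : (L.comp M) 1 = al L * M 1 + be L * conj (M 1) := apply_eq L (M 1)
  have h2 : (L.comp M) I = al L * M I + be L * conj (M I) := apply_eq L (M I)
  have e : al (L.comp M) = ((L.comp M) 1 - I * (L.comp M) I) / 2 := rfl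
  rw [e, h1, h2, apply_eq M 1, apply_eq M I]
  simp only [map_add, map_mul, map_one, map_neg, conj_I, mul_one]
  linear_combination (-(al L * al M) / 2 + al L * be M / 2 * (1 - 1) + al L * be M / 2 -
    be L * conj (be M) / 2 + be L * conj (al M) / 2) * I_mul_I

theorem be_comp (L M : ℂ →L[ℝ] ℂ) : be (L.comp M) = al L * be M + be L * conj (al M) := by
  have h1 : (L.comp M) 1 = al L * M 1 + be L * conj (M 1) := apply_eq L (M 1)
  have h2 : (L.comp M) I = al L * M I + be L * conj (M I) := apply_eq L (M I)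
  have e : be (L.comp M) = ((L.comp M) 1 + I * (L.comp M) I) / 2 := rfl
  rw [e, h1, h2, apply_eq M 1, apply_eq M I]
  simp only [map_add, map_mul, map_one, map_neg, conj_I, mul_one]
  linear_combination ((al L * al M) / 2 - al L * be M / 2 + be L * conj (be M) / 2 -
    be L * conj (al M) / 2) * I_mul_I

theorem al_add (L M : ℂ →L[ℝ] ℂ) : al (L + M) = al L + al M := by
  unfold al
  simp only [_root_.add_apply]
  ring

theorem be_add (L M : ℂ →L[ℝ] ℂ) : be (L + M) = be L + be M := by
  unfold be
  simp only [_root_.add_apply]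
  ring

/-- The determinant of a real linear map in matrix entries. -/
theorem det_eq (L : ℂ →L[ℝ] ℂ) : L.det = ‖al L‖ ^ 2 - ‖be L‖ ^ 2 := by
  have h1 : L.det = (L 1).re * (L I).im - (L 1).im * (L I).re := by
    have h2 : L.det = LinearMap.det (L : ℂ →ₗ[ℝ] ℂ) := rfl
    rw [h2, ← LinearMap.det_toMatrix Complex.basisOneI, Matrix.det_fin_two]
    simp [LinearMap.toMatrix_apply, Complex.basisOneI]
    ring
  rw [h1, ← normSq_eq_norm_sq, ← normSq_eq_norm_sq, normSq_apply, normSq_apply]
  unfold al be
  have e2 : ∀ w : ℂ, (w / 2).re = w.re / 2 := fun w => by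
    rw [show w / 2 = w / ((2 : ℝ) : ℂ) by norm_num, div_ofReal_re]
  have e3 : ∀ w : ℂ, (w / 2).im = w.im / 2 := fun w => by
    rw [show w / 2 = w / ((2 : ℝ) : ℂ) by norm_num, div_ofReal_im]
  simp only [e2, e3, sub_re, sub_im, add_re, add_im, mul_re, mul_im, I_re, I_im]
  ring

theorem curl_eq (W : ℂ → ℂ) (x : ℂ) : curl W x = 2 * (al (fderiv ℝ W x)).im := by
  unfold curl al
  have e3 : ∀ w : ℂ, (w / 2).im = w.im / 2 := fun w => by
    rw [show w / 2 = w / ((2 : ℝ) : ℂ) by norm_num, div_ofReal_im]
  rw [e3]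
  simp only [sub_im, mul_im, I_re, I_im]
  ring

theorem div_eq (W : ℂ → ℂ) (x : ℂ) : div W x = 2 * (al (fderiv ℝ W x)).re := by
  unfold div al
  have e2 : ∀ w : ℂ, (w / 2).re = w.re / 2 := fun w => by
    rw [show w / 2 = w / ((2 : ℝ) : ℂ) by norm_num, div_ofReal_re]
  rw [e2]
  simp only [sub_re, mul_re, I_re, I_im]
  ring

/-- Divergence free fields: `al = i curl / 2`. -/
theorem al_of_div {W : ℂ → ℂ} {x : ℂ} (h : div W x = 0) :
    al (fderiv ℝ W x) = ((curl W x / 2 : ℝ) : ℂ) * I := by
  rw [div_eq] at h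
  rw [curl_eq]
  apply Complex.ext
  · simp
    linarith
  · simp

end Pool.Agent.Helper5.VL
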