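import Pool.Agent.Helper5.VL.Final
import Pool.Agent.Helper61.EF.Ident
import Pool.Agent.Helper61.EF.BoundB

/-!
VL-8. Energy bound for connecting flows, from the `L¹` bound of the vorticity and the virial identity of EF.

`A = Af F` has gradient bounded by the end map, so its oscillation is at most `M R₀²`; its mean is controlled by the angular
momentum; `2 T ‖u‖² ≤ ∫ A curl u_0`.
-/

set_option autoImplicit false

namespace Pool.Agent.Helper5.VL

open Complex MeasureTheory Set Pool.Agent.Helper61.EF ComplexConjugate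

variable {ρ : ℝ → ℝ} {T : ℝ}

private lemma curl_cont2 (F : PerfectFlow ρ T) :
    Continuous (fun q : ℝ × ℂ => curl (F.u q.1) q.2) := by
  have hf : ContDiff ℝ 2 (Function.uncurry (fun (q : ℝ × ℂ) (x : ℂ) => F.u q.1 x)) :=
    F.smooth_u.comp ((contDiff_fst.fst).prodMk contDiff_snd)
  have hd : ContDiff ℝ 0 (fun q : ℝ × ℂ => fderiv ℝ (F.u q.1) q.2) :=
    ContDiff.fderiv (f := fun (q : ℝ × ℂ) (x : ℂ) => F.u q.1 x) hf contDiff_snd (by norm_num)
  have hc := hd.continuous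
  have e1 : Continuous (fun q : ℝ × ℂ => fderiv ℝ (F.u q.1) q.2 1) := hc.clm_apply continuous_const
  have e2 : Continuous (fun q : ℝ × ℂ => fderiv ℝ (F.u q.1) q.2 I) := hc.clm_apply continuous_const
  exact (Complex.continuous_im.comp e1).sub (Complex.continuous_re.comp e2)

theorem virial0 (h : IsRadial ρ) (hT : 0 ≤ T) (F : PerfectFlow ρ T) :
    ∫ a in dom ρ, Af F a * curl (F.u 0) a =
      2 * T * (∫ x in dom ρ, ‖F.u 0 x‖ ^ 2) + (1 / 2) * ∫ t in (0 : ℝ)..T, bE F t := by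
  have h1 : ∫ a in dom ρ, Af F a * curl (F.u 0) a =
      ∫ a in dom ρ, (∫ t in (0 : ℝ)..T, curl (F.u t) (F.g t a) * Bf F t (F.g t a)) := by
    apply setIntegral_congr_fun (isOpen_dom h).measurableSet
    intro a ha
    change Af F a * curl (F.u 0) a =
      ∫ t in (0 : ℝ)..T, curl (F.u t) (F.g t a) * Bf F t (F.g t a)
    rw [Af, mul_comm, ← intervalIntegral.integral_const_mul]
    apply intervalIntegral.integral_congr
    intro t ht
    rw [uIcc_of_le hT] at ht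
    change curl (F.u 0) a * Bf F t (F.g t a) = curl (F.u t) (F.g t a) * Bf F t (F.g t a)
    rw [curl_transport h F ht ha]
  rw [h1, fub_A h hT F (fun t x => curl (F.u t) x * Bf F t x)
    ((curl_cont2 F).mul (Bf_contDiff F).continuous)]
  have h2 : ∫ t in (0 : ℝ)..T, ∫ x in dom ρ, curl (F.u t) x * Bf F t x =
      ∫ t in (0 : ℝ)..T, (2 * (∫ x in dom ρ, ‖F.u 0 x‖ ^ 2) + (1 / 2) * bE F t) := by
    apply intervalIntegral.integral_congr
    intro t ht
    rw [uIcc_of_le hT] at ht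
    change ∫ x in dom ρ, curl (F.u t) x * Bf F t x =
      2 * (∫ x in dom ρ, ‖F.u 0 x‖ ^ 2) + (1 / 2) * bE F t
    rw [rellich h F ht, energy h F ht]
    rfl
  rw [h2, intervalIntegral.integral_add (intervalIntegrable_const)
    (((bE_continuous h F).const_mul _).intervalIntegrable _ _),
    intervalIntegral.integral_const, intervalIntegral.integral_const_mul]
  simp only [sub_zero, smul_eq_mul]
  ring

theorem intA (h : IsRadial ρ) (hT : 0 ≤ T) (F : PerfectFlow ρ T) :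
    ∫ a in dom ρ, Af F a = 2 * ∫ t in (0 : ℝ)..T, ∫ x in dom ρ, cross x (F.u t x) := by
  have e : ∫ a in dom ρ, Af F a = ∫ a in dom ρ, (∫ t in (0 : ℝ)..T, Bf F t (F.g t a)) := rfl
  rw [e, fub_A h hT F (fun t x => Bf F t x) (Bf_contDiff F).continuous,
    ← intervalIntegral.integral_const_mul]
  apply intervalIntegral.integral_congr
  intro t ht
  rw [uIcc_of_le hT] at ht
  exact int_B h F ht

theorem norm_le_of_dom (h : IsRadial ρ) {R₀ : ℝ} (hR₀ : ∀ θ, ρ θ ≤ R₀) {x : ℂ} (hx : x ∈ dom ρ) :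
    ‖x‖ ≤ R₀ := by
  obtain ⟨s, θ, h0, h1, rfl⟩ := hx
  rw [norm_mul, Complex.norm_real, Real.norm_eq_abs, abs_of_nonneg h0, norm_bc h]
  have h2 := h.2.2 θ
  nlinarith [hR₀ θ]

theorem abs_cross_le (a b : ℂ) : |cross a b| ≤ ‖a‖ * ‖b‖ := by
  rw [cross_eq_dot]
  have h1 := abs_dot_le (I * a) b
  rwa [norm_mul, norm_I, one_mul] at h1

theorem Af_osc (h : IsRadial ρ) (hT : 0 ≤ T) (F : PerfectFlow ρ T) {M R₀ : ℝ} (hR₀ : ∀ θ, ρ θ ≤ R₀)
    (hn : ∀ x ∈ dom ρ, ‖fderiv ℝ (F.g T) x‖ ≤ M) {a : ℂ} (ha : a ∈ dom ρ) :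
    |Af F a - Af F 0| ≤ M * R₀ ^ 2 := by
  have hTT : T ∈ Icc (0 : ℝ) T := ⟨hT, le_rfl⟩
  have hmem : ∀ s ∈ Icc (0 : ℝ) 1, (s : ℂ) * a ∈ dom ρ := by
    intro s hs
    obtain ⟨s0, θ, h0, h1, rfl⟩ := ha
    refine ⟨s * s0, θ, mul_nonneg hs.1 h0, ?_, ?_⟩
    · nlinarith [hs.1, hs.2]
    · push_cast
      ring
  have hM : 0 ≤ M := (norm_nonneg _).trans (hn a ha)
  have hR : 0 ≤ R₀ := (norm_nonneg _).trans (norm_le_of_dom h hR₀ ha)
  have hd : ∀ s ∈ Icc (0 : ℝ) 1, HasDerivWithinAt (fun s : ℝ => Af F ((s : ℂ) * a))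
      (fderiv ℝ (Af F) ((s : ℂ) * a) a) (Icc 0 1) s := by
    intro s _
    have h1 : HasFDerivAt (Af F) (fderiv ℝ (Af F) ((s : ℂ) * a)) ((s : ℂ) * a) :=
      ((Af_contDiff F).differentiable one_ne_zero _).hasFDerivAt
    have h2 : HasDerivAt (fun s : ℝ => (s : ℂ) * a) (1 * a) s :=
      (HasDerivAt.ofReal_comp (hasDerivAt_id s)).mul_const a
    rw [one_mul] at h2
    exact (h1.comp_hasDerivAt s h2).hasDerivWithinAt
  have hb : ∀ s ∈ Ico (0 : ℝ) 1, ‖fderiv ℝ (Af F) ((s : ℂ) * a) a‖ ≤ M * R₀ ^ 2 := by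
    intro s hs
    have hs' : s ∈ Icc (0 : ℝ) 1 := ⟨hs.1, hs.2.le⟩
    rw [Af_fderiv h hT F (hmem s hs')]
    have h1 : cross ((s : ℂ) * a) a = 0 := by
      unfold cross
      rw [Complex.re_ofReal_mul, Complex.im_ofReal_mul]
      ring
    rw [h1, sub_zero, Real.norm_eq_abs]
    refine (abs_cross_le _ _).trans ?_
    have h2 : ‖F.g T ((s : ℂ) * a)‖ ≤ R₀ := norm_le_of_dom h hR₀ ((F.g_dom T hTT).mapsTo (hmem s hs'))
    have h3 : ‖fderiv ℝ (F.g T) ((s : ℂ) * a) a‖ ≤ M * R₀ := by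
      refine (ContinuousLinearMap.le_opNorm _ _).trans ?_
      exact mul_le_mul (hn _ (hmem s hs')) (norm_le_of_dom h hR₀ ha) (norm_nonneg _) hM
    calc ‖F.g T ((s : ℂ) * a)‖ * ‖fderiv ℝ (F.g T) ((s : ℂ) * a) a‖ ≤ R₀ * (M * R₀) :=
          mul_le_mul h2 h3 (norm_nonneg _) hR
      _ = M * R₀ ^ 2 := by ring
  have h1 := norm_image_sub_le_of_norm_deriv_le_segment_01' hd hb
  have e1 : ((1 : ℝ) : ℂ) * a = a := by push_cast; ring
  have e0 : ((0 : ℝ) : ℂ) * a = 0 := by push_cast; ring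
  rw [e1, e0, Real.norm_eq_abs] at h1
  exact h1

theorem area_pos (h : IsRadial ρ) : 0 < ∫ _x in dom ρ, (1 : ℝ) := by
  rw [integral_dom_one h]
  have h1 : 0 < ∫ θ in (0 : ℝ)..(2 * Real.pi), ρ θ ^ 2 :=
    intervalIntegral.intervalIntegral_pos_of_pos_on ((h.1.continuous.pow 2).intervalIntegrable _ _)
      (fun θ _ => pow_pos (h.2.2 θ) 2) Real.two_pi_pos
  linarith

theorem core (h : IsRadial ρ) (hT : 0 < T) {A w : ℂ → ℝ} (hA : Continuous A) (hw : Continuous w)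
    {E D R₀ : ℝ} (hE : 0 ≤ E) (hR : 0 ≤ R₀) (hD : 0 ≤ D) (h1 : 2 * T * E ≤ ∫ a in dom ρ, A a * w a)
    (h2 : |∫ a in dom ρ, A a| ≤ 2 * T * (R₀ * Real.sqrt (∫ _x in dom ρ, (1 : ℝ)) * Real.sqrt E))
    (h3 : ∀ a ∈ dom ρ, |A a - A 0| ≤ D) {Λ : ℝ} (hΛ : T * (∫ a in dom ρ, |w a|) ≤ Λ) :
    T * Real.sqrt E ≤ R₀ * Λ / Real.sqrt (∫ _x in dom ρ, (1 : ℝ)) + Real.sqrt (D * Λ) := by
  have hV := area_pos h
  set V := ∫ _x in dom ρ, (1 : ℝ) with hVdef
  set v := Real.sqrt V with hv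
  have hv0 : 0 < v := Real.sqrt_pos.2 hV
  have hvv : v ^ 2 = V := Real.sq_sqrt hV.le
  set e := Real.sqrt E with he
  have he0 : 0 ≤ e := Real.sqrt_nonneg E
  have hee : e ^ 2 = E := Real.sq_sqrt hE
  set L := ∫ a in dom ρ, |w a| with hL
  have hL0 : 0 ≤ L := integral_nonneg fun _ => abs_nonneg _
  have hΛ0 : 0 ≤ Λ := (mul_nonneg hT.le hL0).trans hΛ
  have hAc : Continuous fun a => A a - A 0 := hA.sub continuous_const
  -- the integral against `w`
  have i1 : IntegrableOn (fun a => (A a - A 0) * w a) (dom ρ) := integrableOn_dom h _ (hAc.mul hw)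
  have i2 : IntegrableOn (fun a => A 0 * w a) (dom ρ) := integrableOn_dom h _ (continuous_const.mul hw)
  have e1 : ∫ a in dom ρ, A a * w a = (∫ a in dom ρ, (A a - A 0) * w a) + A 0 * ∫ a in dom ρ, w a := by
    rw [← integral_const_mul, ← integral_add i1 i2]
    refine setIntegral_congr_fun (measurableSet_dom h) fun a _ => ?_
    show A a * w a = (A a - A 0) * w a + A 0 * w a
    ring
  have e2 : ∫ a in dom ρ, (A a - A 0) * w a ≤ D * L := by
    rw [hL, ← integral_const_mul]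
    refine setIntegral_mono_on i1 (integrableOn_dom h _ (continuous_const.mul hw.abs))
      (measurableSet_dom h) fun a ha => ?_
    calc (A a - A 0) * w a ≤ |(A a - A 0) * w a| := le_abs_self _
      _ = |A a - A 0| * |w a| := abs_mul _ _
      _ ≤ D * |w a| := mul_le_mul_of_nonneg_right (h3 a ha) (abs_nonneg _)
  have e3 : A 0 * ∫ a in dom ρ, w a ≤ |A 0| * L := by
    calc A 0 * ∫ a in dom ρ, w a ≤ |A 0 * ∫ a in dom ρ, w a| := le_abs_self _
      _ = |A 0| * |∫ a in dom ρ, w a| := abs_mul _ _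
      _ ≤ |A 0| * L := by
        refine mul_le_mul_of_nonneg_left ?_ (abs_nonneg _)
        have := norm_integral_le_integral_norm (μ := volume.restrict (dom ρ)) w
        simpa only [Real.norm_eq_abs] using this
  -- the mean
  have e4 : |A 0| * V ≤ 2 * T * (R₀ * v * e) + D * V := by
    have f1 : A 0 * V = (∫ a in dom ρ, A a) - ∫ a in dom ρ, (A a - A 0) := by
      have g1 : ∫ a in dom ρ, (A a - A 0) = (∫ a in dom ρ, A a) - ∫ _a in dom ρ, A 0 :=
        integral_sub (integrableOn_dom h _ hA) (integrableOn_dom h _ continuous_const)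
      have g2 : ∫ _a in dom ρ, A 0 = A 0 * V := by
        rw [hVdef, ← integral_const_mul]
        simp
      rw [g1, g2]
      ring
    have f2 : |∫ a in dom ρ, (A a - A 0)| ≤ D * V := by
      have g1 := norm_integral_le_integral_norm (μ := volume.restrict (dom ρ)) (fun a => A a - A 0)
      simp only [Real.norm_eq_abs] at g1
      refine g1.trans ?_
      rw [hVdef, ← integral_const_mul]
      refine setIntegral_mono_on (integrableOn_dom h _ hAc.abs) (integrableOn_dom h _ continuous_const)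
        (measurableSet_dom h) fun a ha => ?_
      rw [mul_one]
      exact h3 a ha
    have f3 : |A 0 * V| = |A 0| * V := by rw [abs_mul, abs_of_pos hV]
    rw [← f3, f1]
    have f4 := abs_sub (∫ a in dom ρ, A a) (∫ a in dom ρ, (A a - A 0))
    linarith
  have e5 : |A 0| ≤ 2 * T * R₀ * e / v + D := by
    have g1 : (2 * T * R₀ * e / v + D) * V = 2 * T * (R₀ * v * e) + D * V := by
      rw [← hvv]
      field_simp
    by_contra hcon
    push Not at hcon
    have := mul_lt_mul_of_pos_right hcon hV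
    linarith
  have e6 : 2 * T * E ≤ 2 * D * L + 2 * T * R₀ * e / v * L := by
    have g1 := mul_le_mul_of_nonneg_right e5 hL0
    have g2 : (2 * T * R₀ * e / v + D) * L = 2 * T * R₀ * e / v * L + D * L := by ring
    linarith
  -- the quadratic inequality
  set X := T * e with hX
  have hX0 : 0 ≤ X := mul_nonneg hT.le he0
  set b := R₀ * Λ / v with hb
  have hb0 : 0 ≤ b := by positivity
  have e7 : X ^ 2 ≤ D * Λ + b * X := by
    have g1 := mul_le_mul_of_nonneg_left e6 hT.le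
    have g2 : T * (2 * T * E) = 2 * X ^ 2 := by
      rw [hX, mul_pow, hee]
      ring
    have g3 : T * (2 * D * L + 2 * T * R₀ * e / v * L) = 2 * (D * (T * L)) + 2 * (R₀ * (T * L) / v * X) := by
      rw [hX]
      field_simp
    have g4 : D * (T * L) ≤ D * Λ := mul_le_mul_of_nonneg_left hΛ hD
    have g5 : R₀ * (T * L) / v * X ≤ b * X := by
      refine mul_le_mul_of_nonneg_right ?_ hX0
      exact div_le_div_of_nonneg_right (mul_le_mul_of_nonneg_left hΛ hR) hv0.le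
    linarith
  set s := Real.sqrt (D * Λ) with hs
  have hs0 : 0 ≤ s := Real.sqrt_nonneg _
  have hss : s ^ 2 = D * Λ := Real.sq_sqrt (mul_nonneg hD hΛ0)
  by_contra hcon
  push Not at hcon
  have g1 : b + s < X := hcon
  nlinarith [mul_nonneg hs0 hX0, mul_nonneg hb0 hX0]

theorem cross_mean (h : IsRadial ρ) {R₀ : ℝ} (hR₀ : ∀ θ, ρ θ ≤ R₀) {v : ℂ → ℂ} (hv : Continuous v) :
    |∫ x in dom ρ, cross x (v x)| ≤
      R₀ * Real.sqrt (∫ _x in dom ρ, (1 : ℝ)) * Real.sqrt (∫ x in dom ρ, ‖v x‖ ^ 2) := by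
  have hR : 0 ≤ R₀ := (h.2.2 0).le.trans (hR₀ 0)
  have h1 := cauchy_dom h (fun x => I * x) v (continuous_const.mul continuous_id) hv
  have h2 : ∀ x, dot (I * x) (v x) = cross x (v x) := fun x => (cross_eq_dot x (v x)).symm
  simp only [h2] at h1
  refine h1.trans ?_
  refine mul_le_mul_of_nonneg_right ?_ (Real.sqrt_nonneg _)
  have h3 : ∫ x in dom ρ, ‖I * x‖ ^ 2 ≤ R₀ ^ 2 * ∫ _x in dom ρ, (1 : ℝ) := by
    rw [← integral_const_mul]
    refine setIntegral_mono_on (integrableOn_dom h _ ((continuous_const.mul continuous_id).norm.pow 2))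
      (integrableOn_dom h _ continuous_const) (measurableSet_dom h) fun x hx => ?_
    rw [norm_mul, norm_I, one_mul, mul_one]
    exact pow_le_pow_left₀ (norm_nonneg _) (norm_le_of_dom h hR₀ hx) 2
  calc Real.sqrt (∫ x in dom ρ, ‖I * x‖ ^ 2) ≤ Real.sqrt (R₀ ^ 2 * ∫ _x in dom ρ, (1 : ℝ)) :=
        Real.sqrt_le_sqrt h3
    _ = R₀ * Real.sqrt (∫ _x in dom ρ, (1 : ℝ)) := by
        rw [Real.sqrt_mul (sq_nonneg _), Real.sqrt_sq hR]

/-- Energy bound, general domain, from a bound of the vorticity. -/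
theorem energy_general (h : IsRadial ρ) (hT : 0 < T) (F : PerfectFlow ρ T) {M R₀ Λ : ℝ}
    (hR₀ : ∀ θ, ρ θ ≤ R₀) (hn : ∀ x ∈ dom ρ, ‖fderiv ℝ (F.g T) x‖ ≤ M)
    (hΛ : T * (∫ a in dom ρ, |curl (F.u 0) a|) ≤ Λ) {t : ℝ} (ht : t ∈ Icc (0 : ℝ) T) :
    T * Real.sqrt (∫ x in dom ρ, ‖F.u t x‖ ^ 2) ≤
      R₀ * Λ / Real.sqrt (∫ _x in dom ρ, (1 : ℝ)) + Real.sqrt (M * R₀ ^ 2 * Λ) := by
  have hR : 0 ≤ R₀ := (h.2.2 0).le.trans (hR₀ 0)
  have hM : 0 ≤ M := (norm_nonneg _).trans (hn 0 zero_mem_dom)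
  rw [energy h F ht]
  have hE : 0 ≤ ∫ x in dom ρ, ‖F.u 0 x‖ ^ 2 := integral_nonneg fun _ => by positivity
  have hbE : 0 ≤ ∫ s in (0 : ℝ)..T, bE F s :=
    intervalIntegral.integral_nonneg hT.le fun s _ => by
      unfold bE
      exact intervalIntegral.integral_nonneg Real.two_pi_pos.le fun θ _ => by positivity
  have h1 := virial0 h hT.le F
  refine core h hT (A := Af F) (w := curl (F.u 0)) (Af_contDiff F).continuous (curl_continuous F) hE hR
    (by positivity) (by linarith) ?_ (fun a ha => Af_osc h hT.le F hR₀ hn ha) hΛ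
  rw [intA h hT.le F, abs_mul, abs_of_pos (by norm_num : (0 : ℝ) < 2), mul_assoc]
  refine mul_le_mul_of_nonneg_left ?_ (by norm_num)
  have hut : ∀ s : ℝ, Continuous (F.u s) := fun s =>
    F.smooth_u.continuous.comp (continuous_const.prodMk continuous_id)
  have h2 : ∀ s ∈ Icc (0 : ℝ) T, |∫ x in dom ρ, cross x (F.u s x)| ≤
      R₀ * Real.sqrt (∫ _x in dom ρ, (1 : ℝ)) * Real.sqrt (∫ x in dom ρ, ‖F.u 0 x‖ ^ 2) := by
    intro s hs
    have := cross_mean h hR₀ (hut s)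
    rwa [energy h F hs] at this
  have h3 := intervalIntegral.norm_integral_le_of_norm_le_const (a := 0) (b := T)
    (f := fun s => ∫ x in dom ρ, cross x (F.u s x))
    (C := R₀ * Real.sqrt (∫ _x in dom ρ, (1 : ℝ)) * Real.sqrt (∫ x in dom ρ, ‖F.u 0 x‖ ^ 2))
    (fun s hs => by
      rw [Real.norm_eq_abs]
      rw [uIoc_of_le hT.le] at hs
      exact h2 s ⟨hs.1.le, hs.2⟩)
  rw [sub_zero, abs_of_pos hT, Real.norm_eq_abs] at h3
  linarith

end Pool.Agent.Helper5.VL
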