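import Pool.Agent.Helper5.VL.Energy

/-!
VL-9. Energy bound on the disc, relative to a rigid rotation.

`v = u - Ω I x`; `∫ (A - Ω R² T) (curl u_0 - 2 Ω) ≥ 2 T ‖v‖²` and `∫ (A - Ω R² T) = 2 T ∫ x × v`.
-/

set_option autoImplicit false

namespace Pool.Agent.Helper5.VL

open Complex MeasureTheory Set Pool.Agent.Helper61.EF ComplexConjugate

variable {T : ℝ}

private theorem norm_sub_sq' (a x : ℂ) (Ω : ℝ) :
    ‖a - (Ω : ℂ) * (I * x)‖ ^ 2 = ‖a‖ ^ 2 - 2 * Ω * cross x a + Ω ^ 2 * ‖x‖ ^ 2 := by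
  rw [← dot_self, ← dot_self, ← dot_self]
  unfold dot cross
  simp
  ring

private theorem u_cont {ρ : ℝ → ℝ} (F : PerfectFlow ρ T) (t : ℝ) : Continuous (F.u t) :=
  F.smooth_u.continuous.comp (continuous_const.prodMk continuous_id)

private theorem cross_cont {a b : ℂ → ℂ} (ha : Continuous a) (hb : Continuous b) :
    Continuous (fun x => cross (a x) (b x)) := by
  unfold cross
  exact ((continuous_re.comp ha).mul (continuous_im.comp hb)).sub
    ((continuous_im.comp ha).mul (continuous_re.comp hb))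

/-- the integral of `‖u - Ω I x‖²` at time `t` -/
private theorem int_w {R : ℝ} (hR : 0 < R) (F : PerfectFlow (fun _ => R) T) (Ω t : ℝ)
    (ht : t ∈ Icc (0 : ℝ) T) :
    ∫ x in dom (fun _ => R), ‖F.u t x - (Ω : ℂ) * (I * x)‖ ^ 2 =
      (∫ x in dom (fun _ => R), ‖F.u 0 x‖ ^ 2) -
        2 * Ω * (∫ x in dom (fun _ => R), cross x (F.u 0 x)) + Ω ^ 2 * (Real.pi * R ^ 4 / 2) := by
  have h := angular_isRadial hR
  have hu := u_cont F t
  have i1 : IntegrableOn (fun x => ‖F.u t x‖ ^ 2) (dom (fun _ => R)) :=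
    integrableOn_dom h _ (hu.norm.pow 2)
  have i2 : IntegrableOn (fun x => 2 * Ω * cross x (F.u t x)) (dom (fun _ => R)) :=
    integrableOn_dom h _ (continuous_const.mul (cross_cont continuous_id hu))
  have i3 : IntegrableOn (fun x : ℂ => Ω ^ 2 * ‖x‖ ^ 2) (dom (fun _ => R)) :=
    integrableOn_dom h _ (continuous_const.mul (continuous_norm.pow 2))
  have i4 : IntegrableOn (fun x => ‖F.u t x‖ ^ 2 - 2 * Ω * cross x (F.u t x))
      (dom (fun _ => R)) := i1.sub i2
  have h1 : ∀ x, ‖F.u t x - (Ω : ℂ) * (I * x)‖ ^ 2 =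
      ‖F.u t x‖ ^ 2 - 2 * Ω * cross x (F.u t x) + Ω ^ 2 * ‖x‖ ^ 2 := fun x => norm_sub_sq' _ _ _
  simp only [h1]
  rw [integral_add i4 i3, integral_sub i1 i2, integral_const_mul, integral_const_mul,
    energy h F ht, angular hR F ht, integral_disc_sq hR]

/-- the lower bound for the boundary energy -/
private theorem bE_lower {R : ℝ} (hR : 0 < R) (F : PerfectFlow (fun _ => R) T) (Ω t : ℝ)
    (ht : t ∈ Icc (0 : ℝ) T) :
    2 * Ω * R ^ 2 * (∫ x in dom (fun _ => R), curl (F.u 0) x) - 2 * Real.pi * Ω ^ 2 * R ^ 4 ≤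
      bE F t := by
  have h := angular_isRadial hR
  have hu := u_cont F t
  have hb : Continuous (bc (fun _ => R)) := (bc_contDiff h).continuous
  have hpi : (0 : ℝ) ≤ 2 * Real.pi := by positivity
  have hIb : Continuous (fun θ => I * bc (fun _ => R) θ) := continuous_const.mul hb
  have hd : Continuous (fun θ => dot (F.u t (bc (fun _ => R) θ)) (I * bc (fun _ => R) θ)) := by
    unfold dot
    exact ((continuous_re.comp (hu.comp hb)).mul (continuous_re.comp hIb)).add
      ((continuous_im.comp (hu.comp hb)).mul (continuous_im.comp hIb))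
  have hG : ∫ x in dom (fun _ => R), curl (F.u 0) x =
      ∫ θ in (0 : ℝ)..(2 * Real.pi), dot (F.u t (bc (fun _ => R) θ)) (I * bc (fun _ => R) θ) := by
    rw [← circ_const h F ht, circ_flux h F t]
    simp only [deriv_bc_const]
  have hpt : ∀ θ : ℝ, 2 * Ω * R ^ 2 * dot (F.u t (bc (fun _ => R) θ)) (I * bc (fun _ => R) θ) -
      Ω ^ 2 * R ^ 4 ≤ ‖F.u t (bc (fun _ => R) θ)‖ ^ 2 * R ^ 2 := by
    intro θ
    have h1 := norm_sub_sq' (F.u t (bc (fun _ => R) θ)) (bc (fun _ => R) θ) Ω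
    have h2 : ‖bc (fun _ => R) θ‖ = R := norm_bc h θ
    rw [h2] at h1
    have h3 : cross (bc (fun _ => R) θ) (F.u t (bc (fun _ => R) θ)) =
        dot (F.u t (bc (fun _ => R) θ)) (I * bc (fun _ => R) θ) := by
      rw [cross_eq_dot, dot_comm]
    rw [h3] at h1
    have h4 : 0 ≤ ‖F.u t (bc (fun _ => R) θ)‖ ^ 2 -
        2 * Ω * dot (F.u t (bc (fun _ => R) θ)) (I * bc (fun _ => R) θ) + Ω ^ 2 * R ^ 2 := by
      rw [← h1]; positivity
    nlinarith [mul_nonneg h4 (sq_nonneg R)]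
  have c1 : Continuous (fun θ =>
      2 * Ω * R ^ 2 * dot (F.u t (bc (fun _ => R) θ)) (I * bc (fun _ => R) θ)) :=
    continuous_const.mul hd
  have c2 : Continuous (fun _ : ℝ => Ω ^ 2 * R ^ 4) := continuous_const
  have hmono := intervalIntegral.integral_mono_on (μ := volume) hpi
    (f := fun θ => 2 * Ω * R ^ 2 * dot (F.u t (bc (fun _ => R) θ)) (I * bc (fun _ => R) θ) -
      Ω ^ 2 * R ^ 4)
    (g := fun θ => ‖F.u t (bc (fun _ => R) θ)‖ ^ 2 * R ^ 2)
    ((c1.sub c2).intervalIntegrable _ _)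
    ((((hu.comp hb).norm.pow 2).mul continuous_const).intervalIntegrable _ _)
    (fun θ _ => hpt θ)
  rw [intervalIntegral.integral_sub (c1.intervalIntegrable _ _)
    (c2.intervalIntegrable _ _), intervalIntegral.integral_const_mul,
    intervalIntegral.integral_const, smul_eq_mul] at hmono
  rw [hG]
  unfold bE
  linarith

theorem area_disc {R : ℝ} (hR : 0 < R) : ∫ _x in dom (fun _ => R), (1 : ℝ) = Real.pi * R ^ 2 := by
  rw [integral_dom_one (angular_isRadial hR)]
  simp only [intervalIntegral.integral_const, sub_zero, smul_eq_mul]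
  ring

/-- Energy bound on the disc relative to the rigid rotation of angular velocity `Ω`. -/
theorem energy_disc {R : ℝ} (hR : 0 < R) (hT : 0 < T) (F : PerfectFlow (fun _ => R) T) {M Λ Ω : ℝ}
    (hn : ∀ x ∈ dom (fun _ => R), ‖fderiv ℝ (F.g T) x‖ ≤ M)
    (hΛ : T * (∫ a in dom (fun _ => R), |curl (F.u 0) a - 2 * Ω|) ≤ Λ) {t : ℝ} (ht : t ∈ Icc (0 : ℝ) T) :
    T * Real.sqrt (∫ x in dom (fun _ => R), ‖F.u t x - (Ω : ℂ) * (I * x)‖ ^ 2) ≤
      R * Λ / Real.sqrt (∫ _x in dom (fun _ => R), (1 : ℝ)) + Real.sqrt (M * R ^ 2 * Λ) := by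
  have h := angular_isRadial hR
  have h0 : (0 : ℝ) ∈ Icc (0 : ℝ) T := ⟨le_rfl, hT.le⟩
  have hM : 0 ≤ M := (norm_nonneg _).trans (hn 0 zero_mem_dom)
  rw [int_w hR F Ω t ht, ← int_w hR F Ω 0 h0]
  have hE : 0 ≤ ∫ x in dom (fun _ => R), ‖F.u 0 x - (Ω : ℂ) * (I * x)‖ ^ 2 :=
    integral_nonneg fun _ => by positivity
  have hang : ∫ s in (0 : ℝ)..T, ∫ x in dom (fun _ => R), cross x (F.u s x) =
      T * ∫ x in dom (fun _ => R), cross x (F.u 0 x) := by
    have h1 : ∫ s in (0 : ℝ)..T, ∫ x in dom (fun _ => R), cross x (F.u s x) =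
        ∫ _s in (0 : ℝ)..T, ∫ x in dom (fun _ => R), cross x (F.u 0 x) := by
      apply intervalIntegral.integral_congr
      intro s hs
      rw [uIcc_of_le hT.le] at hs
      exact angular hR F hs
    rw [h1, intervalIntegral.integral_const, smul_eq_mul, sub_zero]
  have hbE : T * (2 * Ω * R ^ 2 * (∫ x in dom (fun _ => R), curl (F.u 0) x) -
      2 * Real.pi * Ω ^ 2 * R ^ 4) ≤ ∫ s in (0 : ℝ)..T, bE F s := by
    have h1 := intervalIntegral.integral_mono_on (μ := volume) hT.le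
      (f := fun _ => 2 * Ω * R ^ 2 * (∫ x in dom (fun _ => R), curl (F.u 0) x) -
        2 * Real.pi * Ω ^ 2 * R ^ 4)
      (g := fun s => bE F s) (continuous_const.intervalIntegrable _ _)
      ((bE_continuous h F).intervalIntegrable _ _)
      (fun s hs => bE_lower hR F Ω s hs)
    rw [intervalIntegral.integral_const, smul_eq_mul, sub_zero] at h1
    exact h1
  have hvir := virial0 h hT.le F
  have hA := intA h hT.le F
  rw [hang] at hA
  have hAc : Continuous (Af F) := (Af_contDiff F).continuous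
  have hwc : Continuous (curl (F.u 0)) := curl_continuous F
  have hS := int_w hR F Ω 0 h0
  have harea := area_disc hR
  have hL : ∫ x in dom (fun _ => R), cross x (F.u 0 x - (Ω : ℂ) * (I * x)) =
      (∫ x in dom (fun _ => R), cross x (F.u 0 x)) - Ω * (Real.pi * R ^ 4 / 2) := by
    have h1 : ∀ x : ℂ, cross x (F.u 0 x - (Ω : ℂ) * (I * x)) = cross x (F.u 0 x) - Ω * ‖x‖ ^ 2 := by
      intro x
      rw [← dot_self]
      unfold dot cross
      simp
      ring
    simp only [h1]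
    have j1 : IntegrableOn (fun x => cross x (F.u 0 x)) (dom (fun _ => R)) :=
      integrableOn_dom h _ (cross_cont continuous_id (u_cont F 0))
    have j2 : IntegrableOn (fun x : ℂ => Ω * ‖x‖ ^ 2) (dom (fun _ => R)) :=
      integrableOn_dom h _ (continuous_const.mul (continuous_norm.pow 2))
    rw [integral_sub j1 j2, integral_const_mul, integral_disc_sq hR]
  have hIA : ∫ a in dom (fun _ => R), (Af F a - Ω * R ^ 2 * T) =
      2 * T * ∫ x in dom (fun _ => R), cross x (F.u 0 x - (Ω : ℂ) * (I * x)) := by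
    have g1 : ∫ a in dom (fun _ => R), (Af F a - Ω * R ^ 2 * T) =
        (∫ a in dom (fun _ => R), Af F a) - ∫ _a in dom (fun _ => R), Ω * R ^ 2 * T :=
      integral_sub (integrableOn_dom h _ hAc) (integrableOn_dom h _ continuous_const)
    have g2 : ∫ _a in dom (fun _ => R), Ω * R ^ 2 * T = Ω * R ^ 2 * T * (Real.pi * R ^ 2) := by
      rw [← harea, ← integral_const_mul]
      simp
    rw [g1, g2, hA, hL]
    ring
  have hIAw : 2 * T * (∫ x in dom (fun _ => R), ‖F.u 0 x - (Ω : ℂ) * (I * x)‖ ^ 2) ≤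
      ∫ a in dom (fun _ => R), (Af F a - Ω * R ^ 2 * T) * (curl (F.u 0) a - 2 * Ω) := by
    have j1 : IntegrableOn (fun a => Af F a * curl (F.u 0) a) (dom (fun _ => R)) :=
      integrableOn_dom h _ (hAc.mul hwc)
    have j2 : IntegrableOn (fun a => 2 * Ω * Af F a) (dom (fun _ => R)) :=
      integrableOn_dom h _ (continuous_const.mul hAc)
    have j3 : IntegrableOn (fun a => Ω * R ^ 2 * T * curl (F.u 0) a) (dom (fun _ => R)) :=
      integrableOn_dom h _ (continuous_const.mul hwc)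
    have j4 : IntegrableOn (fun _ : ℂ => 2 * Ω * (Ω * R ^ 2 * T)) (dom (fun _ => R)) :=
      integrableOn_dom h _ continuous_const
    have j12 : IntegrableOn (fun a => Af F a * curl (F.u 0) a - 2 * Ω * Af F a) (dom (fun _ => R)) :=
      j1.sub j2
    have j123 : IntegrableOn (fun a => Af F a * curl (F.u 0) a - 2 * Ω * Af F a -
        Ω * R ^ 2 * T * curl (F.u 0) a) (dom (fun _ => R)) := j12.sub j3
    have g1 : ∫ a in dom (fun _ => R), (Af F a - Ω * R ^ 2 * T) * (curl (F.u 0) a - 2 * Ω) =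
        ∫ a in dom (fun _ => R), (Af F a * curl (F.u 0) a - 2 * Ω * Af F a -
          Ω * R ^ 2 * T * curl (F.u 0) a + 2 * Ω * (Ω * R ^ 2 * T)) := by
      refine setIntegral_congr_fun (measurableSet_dom h) fun a _ => ?_
      show (Af F a - Ω * R ^ 2 * T) * (curl (F.u 0) a - 2 * Ω) = Af F a * curl (F.u 0) a -
        2 * Ω * Af F a - Ω * R ^ 2 * T * curl (F.u 0) a + 2 * Ω * (Ω * R ^ 2 * T)
      ring
    have g2 : ∫ _a in dom (fun _ => R), 2 * Ω * (Ω * R ^ 2 * T) =
        2 * Ω * (Ω * R ^ 2 * T) * (Real.pi * R ^ 2) := by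
      rw [← harea, ← integral_const_mul]
      simp
    rw [g1, integral_add j123 j4, integral_sub j12 j3, integral_sub j1 j2, integral_const_mul,
      integral_const_mul, g2, hvir, hA, hS]
    linarith
  have hosc : ∀ a ∈ dom (fun _ => R), |(Af F a - Ω * R ^ 2 * T) - (Af F 0 - Ω * R ^ 2 * T)| ≤ M * R ^ 2 := by
    intro a ha
    have := Af_osc h hT.le F (fun _ => le_rfl) hn ha
    rwa [sub_sub_sub_cancel_right]
  have hmean := cross_mean h (R₀ := R) (fun _ => le_rfl)
    (v := fun x => F.u 0 x - (Ω : ℂ) * (I * x)) ((u_cont F 0).sub (by fun_prop))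
  refine core h hT (A := fun a => Af F a - Ω * R ^ 2 * T) (w := fun a => curl (F.u 0) a - 2 * Ω)
    (hAc.sub continuous_const) (hwc.sub continuous_const) hE hR.le (by positivity) hIAw ?_ hosc hΛ
  rw [hIA, abs_mul, abs_of_pos (by positivity : (0 : ℝ) < 2 * T)]
  exact mul_le_mul_of_nonneg_left hmean (by positivity)

end Pool.Agent.Helper5.VL
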