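import Pool.Agent.Helper5.VL.EnergyDisc

/-!
VL-10. The energy bound in the form handed in.
-/

set_option autoImplicit false

namespace Pool.Agent.Helper5.VL

open Complex MeasureTheory Set Pool.Agent.Helper61.EF ComplexConjugate

/-- The bound of the energy in terms of the bound `Λ` of the vorticity; `V` is the area, `R₀` a bound for `|x|`. -/
noncomputable def Eb (R₀ M V Λ : ℝ) : ℝ := R₀ * Λ / Real.sqrt V + Real.sqrt (M * R₀ ^ 2 * Λ)

/-- The bound of the vorticity. -/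
noncomputable def Lb (ε M V τ d : ℝ) : ℝ := 2 * M / ε * (KK (ε / (4 * M)) * V + τ ^ 2 * d)

/-- The conformal part of `Dg_t(a)`, followed continuously, turns during `[0, T]` by an angle within `π` of `τ`. -/
def Turns {ρ : ℝ → ℝ} {T : ℝ} (F : PerfectFlow ρ T) (τ : ℝ) : Prop :=
  ∀ a ∈ dom ρ, ∃ φ : ℝ → ℝ, Continuous φ ∧ φ 0 = 0 ∧
    (∀ t ∈ Icc (0 : ℝ) T, al (fderiv ℝ (F.g t) a) =
      (‖al (fderiv ℝ (F.g t) a)‖ : ℂ) * Complex.exp ((φ t : ℂ) * I)) ∧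
    |φ T - τ| < Real.pi

theorem energy_final {ρ : ℝ → ℝ} {T : ℝ} (F : PerfectFlow ρ T) (h : IsRadial ρ) (hρ2 : ContDiff ℝ 2 ρ)
    (hq : ∀ θ, 0 < cv ρ θ) {R₀ : ℝ} (hR₀ : ∀ θ, ρ θ ≤ R₀) (hT : 0 < T) {θ₀ ε M : ℝ} (hε : 0 < ε)
    (hε1 : ε ≤ 1)
    (htr : ∀ x ∈ dom ρ, -2 + 2 * ε ≤ (Complex.exp ((-θ₀ : ℝ) * I) * fderiv ℝ (F.g T) x 1).re +
      (Complex.exp ((-θ₀ : ℝ) * I) * fderiv ℝ (F.g T) x I).im)
    (hn : ∀ x ∈ dom ρ, ‖fderiv ℝ (F.g T) x‖ ≤ M) :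
    ∃ k : ℤ, Turns F (θ₀ + 2 * Real.pi * k) ∧ ∀ t ∈ Icc (0 : ℝ) T,
      T * Real.sqrt (∫ x in dom ρ, ‖F.u t x‖ ^ 2) ≤
        Eb R₀ M (∫ _x in dom ρ, (1 : ℝ))
          (Lb ε M (∫ _x in dom ρ, (1 : ℝ)) (θ₀ + 2 * Real.pi * k) (dl ρ) +
            2 * |θ₀ + 2 * Real.pi * k| * ∫ _x in dom ρ, (1 : ℝ)) := by
  obtain ⟨k, hk, hb⟩ := vorticity_L1_final F h hρ2 hq hT hε hε1 htr hn
  refine ⟨k, fun a ha => ?_, fun t ht => ?_⟩
  · obtain ⟨φ, h1, h2, h3, h4⟩ := hk a ha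
    refine ⟨φ, h1, h2, h3, ?_⟩
    have h5 : φ T - (θ₀ + 2 * Real.pi * k) = φ T - θ₀ - 2 * Real.pi * k := by ring
    rw [h5]
    exact h4
  have h0 : (0 : ℝ) ∈ Icc (0 : ℝ) T := ⟨le_rfl, hT.le⟩
  have hb0 := hb 0 h0
  have hcc := curl_continuous F
  set τ : ℝ := θ₀ + 2 * Real.pi * k with hτ
  set V := ∫ _x in dom ρ, (1 : ℝ) with hV
  have h1 : T * (∫ a in dom ρ, |curl (F.u 0) a|) ≤ Lb ε M V τ (dl ρ) + 2 * |τ| * V := by
    have e1 : T * (∫ a in dom ρ, |curl (F.u 0) a|) ≤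
        (∫ a in dom ρ, |T * curl (F.u 0) a - 2 * θ₀ - 4 * Real.pi * k|) + ∫ _a in dom ρ, 2 * |τ| := by
      have c1 : Continuous fun a => |T * curl (F.u 0) a - 2 * θ₀ - 4 * Real.pi * k| := by fun_prop
      have i1 : IntegrableOn (fun a => |T * curl (F.u 0) a - 2 * θ₀ - 4 * Real.pi * k|) (dom ρ) :=
        integrableOn_dom h _ c1
      have i2 : IntegrableOn (fun _ : ℂ => 2 * |τ|) (dom ρ) := integrableOn_dom h _ continuous_const
      rw [← integral_add i1 i2, ← integral_const_mul]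
      refine setIntegral_mono_on (integrableOn_dom h _ (continuous_const.mul hcc.abs))
        (i1.add i2) (measurableSet_dom h) fun a _ => ?_
      have e2 : T * |curl (F.u 0) a| = |T * curl (F.u 0) a| := by
        rw [abs_mul, abs_of_pos hT]
      have e3 : T * curl (F.u 0) a = (T * curl (F.u 0) a - 2 * θ₀ - 4 * Real.pi * k) + 2 * τ := by
        rw [hτ]
        ring
      have e4 : |T * curl (F.u 0) a| ≤
          |T * curl (F.u 0) a - 2 * θ₀ - 4 * Real.pi * k| + |2 * τ| := by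
        conv_lhs => rw [e3]
        exact abs_add_le _ _
      have e5 : |2 * τ| = 2 * |τ| := by rw [abs_mul, abs_of_pos (by norm_num : (0 : ℝ) < 2)]
      rw [e2]
      linarith
    have e2 : ∫ _a in dom ρ, 2 * |τ| = 2 * |τ| * V := by
      rw [hV, ← integral_const_mul]
      simp
    rw [e2] at e1
    exact e1.trans (by
      have : (∫ a in dom ρ, |T * curl (F.u 0) a - 2 * θ₀ - 4 * Real.pi * k|) ≤ Lb ε M V τ (dl ρ) := hb0
      linarith)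
  exact energy_general h hT F hR₀ hn h1 ht

theorem energy_final_disc {R T : ℝ} (F : PerfectFlow (fun _ => R) T) (hR : 0 < R) (hT : 0 < T)
    {θ₀ ε M : ℝ} (hε : 0 < ε) (hε1 : ε ≤ 1)
    (htr : ∀ x ∈ dom (fun _ => R), -2 + 2 * ε ≤ (Complex.exp ((-θ₀ : ℝ) * I) * fderiv ℝ (F.g T) x 1).re +
      (Complex.exp ((-θ₀ : ℝ) * I) * fderiv ℝ (F.g T) x I).im)
    (hn : ∀ x ∈ dom (fun _ => R), ‖fderiv ℝ (F.g T) x‖ ≤ M) :
    ∃ k : ℤ, Turns F (θ₀ + 2 * Real.pi * k) ∧ ∀ t ∈ Icc (0 : ℝ) T,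
      T * Real.sqrt (∫ x in dom (fun _ => R),
        ‖F.u t x - (((θ₀ + 2 * Real.pi * k) / T : ℝ) : ℂ) * (I * x)‖ ^ 2) ≤
        Eb R M (Real.pi * R ^ 2) (Lb ε M (Real.pi * R ^ 2) 0 0) := by
  have h := angular_isRadial hR
  have hq : ∀ θ, 0 < cv (fun _ : ℝ => R) θ := by
    intro θ
    unfold cv
    have h1 : deriv (fun _ : ℝ => R) = fun _ => 0 := by
      funext x
      exact deriv_const x R
    rw [h1]
    simp only [deriv_const]
    nlinarith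
  obtain ⟨k, hk, hb⟩ := vorticity_L1_final F h contDiff_const hq hT hε hε1 htr hn
  refine ⟨k, fun a ha => ?_, fun t ht => ?_⟩
  · obtain ⟨φ, h1, h2, h3, h4⟩ := hk a ha
    refine ⟨φ, h1, h2, h3, ?_⟩
    have h5 : φ T - (θ₀ + 2 * Real.pi * k) = φ T - θ₀ - 2 * Real.pi * k := by ring
    rw [h5]
    exact h4
  have h0 : (0 : ℝ) ∈ Icc (0 : ℝ) T := ⟨le_rfl, hT.le⟩
  have hb0 := hb 0 h0
  rw [dl_const, area_disc hR] at hb0
  set Ω : ℝ := (θ₀ + 2 * Real.pi * k) / T with hΩ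
  have hTΩ : T * Ω = θ₀ + 2 * Real.pi * k := by
    rw [hΩ]
    field_simp
  have h1 : T * (∫ a in dom (fun _ => R), |curl (F.u 0) a - 2 * Ω|) ≤
      Lb ε M (Real.pi * R ^ 2) 0 0 := by
    have e1 : T * (∫ a in dom (fun _ => R), |curl (F.u 0) a - 2 * Ω|) =
        ∫ a in dom (fun _ => R), |T * curl (F.u 0) a - 2 * θ₀ - 4 * Real.pi * k| := by
      rw [← integral_const_mul]
      refine setIntegral_congr_fun (measurableSet_dom h) fun a _ => ?_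
      show T * |curl (F.u 0) a - 2 * Ω| = |T * curl (F.u 0) a - 2 * θ₀ - 4 * Real.pi * k|
      have e2 : T * curl (F.u 0) a - 2 * θ₀ - 4 * Real.pi * k = T * (curl (F.u 0) a - 2 * Ω) := by
        linear_combination (2 : ℝ) * hTΩ
      rw [e2, abs_mul, abs_of_pos hT]
    rw [e1]
    refine hb0.trans (le_of_eq ?_)
    unfold Lb
    ring
  have h2 := energy_disc hR hT F hn h1 ht
  rw [area_disc hR] at h2
  exact h2

end Pool.Agent.Helper5.VL
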