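import Pool.Agent.Helper5.VL.Main

/-!
VL-7. The theorem in the form handed in: trace and operator norm of the derivative of the end map; all times.
-/

set_option autoImplicit false

namespace Pool.Agent.Helper5.VL

open Complex MeasureTheory Set Pool.Agent.Helper61.EF ComplexConjugate

theorem al_re (z : ℂ) (L : ℂ →L[ℝ] ℂ) : (z * al L).re = ((z * L 1).re + (z * L I).im) / 2 := by
  have h1 : z * al L = (z * L 1 - I * (z * L I)) / ((2 : ℝ) : ℂ) := by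
    unfold al
    push_cast
    ring
  rw [h1, div_ofReal_re]
  simp only [sub_re, mul_re, I_re, I_im]
  ring

theorem al_norm_le (L : ℂ →L[ℝ] ℂ) : ‖al L‖ ≤ ‖L‖ := by
  have h1 : ‖L 1‖ ≤ ‖L‖ := by simpa using L.le_opNorm 1
  have h2 : ‖L I‖ ≤ ‖L‖ := by simpa using L.le_opNorm I
  have h3 : ‖L 1 - I * L I‖ ≤ ‖L 1‖ + ‖L I‖ := by
    have h4 := norm_sub_le (L 1) (I * L I)
    rwa [norm_mul, norm_I, one_mul] at h4
  unfold al
  rw [norm_div]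
  have h5 : ‖(2 : ℂ)‖ = 2 := by norm_num
  rw [h5]
  linarith

theorem vorticity_L1_final {ρ : ℝ → ℝ} {T : ℝ} (F : PerfectFlow ρ T) (h : IsRadial ρ) (hρ2 : ContDiff ℝ 2 ρ)
    (hq : ∀ θ, 0 < cv ρ θ) (hT : 0 < T) {θ₀ ε M : ℝ} (hε : 0 < ε) (hε1 : ε ≤ 1)
    (htr : ∀ x ∈ dom ρ, -2 + 2 * ε ≤ (Complex.exp ((-θ₀ : ℝ) * I) * fderiv ℝ (F.g T) x 1).re +
      (Complex.exp ((-θ₀ : ℝ) * I) * fderiv ℝ (F.g T) x I).im)
    (hn : ∀ x ∈ dom ρ, ‖fderiv ℝ (F.g T) x‖ ≤ M) :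
    ∃ k : ℤ,
      (∀ a ∈ dom ρ, ∃ φ : ℝ → ℝ, Continuous φ ∧ φ 0 = 0 ∧
        (∀ t ∈ Icc (0 : ℝ) T, al (fderiv ℝ (F.g t) a) =
          (‖al (fderiv ℝ (F.g t) a)‖ : ℂ) * Complex.exp ((φ t : ℂ) * I)) ∧
        |φ T - θ₀ - 2 * Real.pi * k| < Real.pi) ∧
      ∀ t ∈ Icc (0 : ℝ) T, ∫ x in dom ρ, |T * curl (F.u t) x - 2 * θ₀ - 4 * Real.pi * k| ≤
        2 * M / ε * (KK (ε / (4 * M)) * (∫ _x in dom ρ, (1 : ℝ)) + (θ₀ + 2 * Real.pi * k) ^ 2 * dl ρ) := by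
  have h0 : (0 : ℂ) ∈ dom ρ := ⟨0, 0, le_rfl, one_pos, by simp⟩
  have hM : 1 ≤ M := by
    have h1 := F.g_det T ⟨hT.le, le_rfl⟩ 0 (Or.inl h0)
    rw [det_eq] at h1
    have h2 : 1 ≤ ‖al (fderiv ℝ (F.g T) 0)‖ := by
      by_contra hc
      push Not at hc
      nlinarith [norm_nonneg (al (fderiv ℝ (F.g T) 0)), sq_nonneg ‖be (fderiv ℝ (F.g T) 0)‖]
    exact h2.trans ((al_norm_le _).trans (hn 0 h0))
  obtain ⟨k, hkk, hk⟩ := vorticity_L1 h hρ2 hq hT F hε hε1 hM (θ₀ := θ₀)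
    (fun x hx => by
      show -1 + ε ≤ (Complex.exp (((-θ₀ : ℝ) : ℂ) * I) * al (fderiv ℝ (F.g T) x)).re
      rw [al_re]
      linarith [htr x hx])
    (fun x hx => (al_norm_le _).trans (hn x hx))
  refine ⟨k, fun a ha => ?_, fun t ht => ?_⟩
  · obtain ⟨φ, h1, h2, h3, h4⟩ := exists_lift h hT F ha
    refine ⟨φ, h1, h2, h3, ?_⟩
    rw [h4]
    exact hkk a ha
  have h1 : ∫ x in dom ρ, |T * curl (F.u t) x - 2 * θ₀ - 4 * Real.pi * k| =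
      ∫ x in dom ρ, |T * curl (F.u 0) x - 2 * θ₀ - 4 * Real.pi * k| := by
    rw [← push h F ht fun x => |T * curl (F.u t) x - 2 * θ₀ - 4 * Real.pi * k|]
    refine setIntegral_congr_fun (measurableSet_dom h) fun a ha => ?_
    show |T * curl (F.u t) (F.g t a) - 2 * θ₀ - 4 * Real.pi * k| =
      |T * curl (F.u 0) a - 2 * θ₀ - 4 * Real.pi * k|
    rw [curl_transport h F ht ha]
  rw [h1]
  exact hk

end Pool.Agent.Helper5.VL
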