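import Pool.Agent.Helper5.VL.Path

/-!
VL-3. The gradient of the flow map along a particle. `Ag F t a`, `Bg F t a` are the conformal and anticonformal parts of
`D g_t(a)`, `Sg F t a` is the strain `be (Du(t, g_t a))`.
-/

set_option autoImplicit false

namespace Pool.Agent.Helper5.VL

open Complex MeasureTheory Set Pool.Agent.Helper61.EF ComplexConjugate

variable {ρ : ℝ → ℝ} {T : ℝ}

noncomputable def Ag (F : PerfectFlow ρ T) (t : ℝ) (a : ℂ) : ℂ := al (fderiv ℝ (F.g t) a)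
noncomputable def Bg (F : PerfectFlow ρ T) (t : ℝ) (a : ℂ) : ℂ := be (fderiv ℝ (F.g t) a)
noncomputable def Sg (F : PerfectFlow ρ T) (t : ℝ) (a : ℂ) : ℂ := be (fderiv ℝ (F.u t) (F.g t a))

private lemma fd_cont {f : ℝ → ℂ → ℂ} (hf : ContDiff ℝ 2 (fun q : ℝ × ℂ => f q.1 q.2)) (g : ℝ × ℂ → ℂ)
    (hg : Continuous g) (v : ℂ) : Continuous (fun q : ℝ × ℂ => fderiv ℝ (f q.1) (g q) v) := by
  have h1 : Continuous (fderiv ℝ (fun q : ℝ × ℂ => f q.1 q.2)) := hf.continuous_fderiv (by norm_num)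
  have h2 : Continuous (fun q : ℝ × ℂ =>
      fderiv ℝ (fun q : ℝ × ℂ => f q.1 q.2) (q.1, g q) ((0 : ℝ), v)) :=
    (h1.comp (continuous_fst.prodMk hg)).clm_apply continuous_const
  refine h2.congr fun q => ?_
  rw [angular_fderiv_space f hf]

theorem Ag_continuous (F : PerfectFlow ρ T) : Continuous (fun q : ℝ × ℂ => Ag F q.1 q.2) := by
  unfold Ag al
  exact ((fd_cont F.smooth_g _ continuous_snd 1).sub
    (continuous_const.mul (fd_cont F.smooth_g _ continuous_snd I))).div_const 2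

theorem Bg_continuous (F : PerfectFlow ρ T) : Continuous (fun q : ℝ × ℂ => Bg F q.1 q.2) := by
  unfold Bg be
  exact ((fd_cont F.smooth_g _ continuous_snd 1).add
    (continuous_const.mul (fd_cont F.smooth_g _ continuous_snd I))).div_const 2

theorem Sg_continuous (F : PerfectFlow ρ T) : Continuous (fun q : ℝ × ℂ => Sg F q.1 q.2) := by
  unfold Sg be
  have hg : Continuous (fun q : ℝ × ℂ => F.g q.1 q.2) := F.smooth_g.continuous
  exact ((fd_cont F.smooth_u _ hg 1).add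
    (continuous_const.mul (fd_cont F.smooth_u _ hg I))).div_const 2

theorem strain_continuous (F : PerfectFlow ρ T) :
    Continuous (fun q : ℝ × ℂ => be (fderiv ℝ (F.u q.1) q.2)) := by
  unfold be
  exact ((fd_cont F.smooth_u _ continuous_snd 1).add
    (continuous_const.mul (fd_cont F.smooth_u _ continuous_snd I))).div_const 2

private lemma grad_ode (h : IsRadial ρ) (F : PerfectFlow ρ T) {a : ℂ} (ha : a ∈ dom ρ) {t : ℝ}
    (ht : t ∈ Icc (0 : ℝ) T) (v : ℂ) :
    HasDerivAt (fun s => fderiv ℝ (F.g s) a v) (fderiv ℝ (F.u t) (F.g t a) (fderiv ℝ (F.g t) a v)) t := by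
  obtain ⟨G, hG⟩ : ∃ G : ℝ × ℂ → ℂ, G = fun q : ℝ × ℂ => F.g q.1 q.2 := ⟨_, rfl⟩
  have hG2 : ContDiff ℝ 2 G := by rw [hG]; exact F.smooth_g
  have hG' : ContDiff ℝ 1 (fderiv ℝ G) := hG2.fderiv_right (by norm_num)
  have hGd : HasFDerivAt (fderiv ℝ G) (fderiv ℝ (fderiv ℝ G) (t, a)) (t, a) :=
    (hG'.differentiable one_ne_zero (t, a)).hasFDerivAt
  have hsym := (hG2.contDiffAt (x := (t, a))).isSymmSndFDerivAt (by simp)
  have hsp : ∀ (s : ℝ) (x w : ℂ), fderiv ℝ (F.g s) x w = fderiv ℝ G (s, x) (0, w) := by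
    intro s x w
    rw [hG]
    exact angular_fderiv_space F.g F.smooth_g s x w
  -- derivative in time
  have h1 : HasDerivAt (fun s : ℝ => ((s, a) : ℝ × ℂ)) ((1 : ℝ), (0 : ℂ)) t :=
    (hasDerivAt_id t).prodMk (hasDerivAt_const t a)
  have h2 : HasDerivAt (fun s : ℝ => fderiv ℝ G (s, a)) (fderiv ℝ (fderiv ℝ G) (t, a) (1, 0)) t :=
    HasFDerivAt.comp_hasDerivAt (l := fderiv ℝ G) t hGd h1
  have h3 : HasDerivAt (fun s : ℝ => fderiv ℝ G (s, a) ((0 : ℝ), v))
      (fderiv ℝ (fderiv ℝ G) (t, a) (1, 0) (0, v)) t := by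
    have := h2.clm_apply (hasDerivAt_const t ((0 : ℝ), v))
    simpa using this
  have h4 : (fun s => fderiv ℝ (F.g s) a v) = fun s : ℝ => fderiv ℝ G (s, a) ((0 : ℝ), v) := by
    funext s
    exact hsp s a v
  rw [h4]
  refine h3.congr_deriv ?_
  rw [hsym (1, 0) (0, v)]
  -- derivative in space of the time derivative
  have h5 : HasFDerivAt (fun x : ℂ => ((t, x) : ℝ × ℂ)) (ContinuousLinearMap.inr ℝ ℝ ℂ) a :=
    hasFDerivAt_prodMk_right t a
  have h6 : HasFDerivAt (fun x : ℂ => fderiv ℝ G (t, x))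
      ((fderiv ℝ (fderiv ℝ G) (t, a)).comp (ContinuousLinearMap.inr ℝ ℝ ℂ)) a := hGd.comp a h5
  have h7 : HasFDerivAt (fun x : ℂ => fderiv ℝ G (t, x) ((1 : ℝ), (0 : ℂ)))
      (((fderiv ℝ (fderiv ℝ G) (t, a)).comp (ContinuousLinearMap.inr ℝ ℝ ℂ)).flip ((1 : ℝ), (0 : ℂ))) a := by
    have := h6.clm_apply (hasFDerivAt_const ((1 : ℝ), (0 : ℂ)) a)
    refine this.congr_fderiv ?_
    ext w <;> simp
  have hu : HasFDerivAt (F.u t) (fderiv ℝ (F.u t) (F.g t a)) (F.g t a) := by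
    have h8 : ContDiff ℝ 2 (F.u t) := F.smooth_u.comp (contDiff_prodMk_right t)
    exact (h8.differentiable (by norm_num) _).hasFDerivAt
  have hg : HasFDerivAt (F.g t) (fderiv ℝ (F.g t) a) a := by
    have h8 : ContDiff ℝ 2 (F.g t) := F.smooth_g.comp (contDiff_prodMk_right t)
    exact (h8.differentiable (by norm_num) _).hasFDerivAt
  have h9 : HasFDerivAt (fun x => F.u t (F.g t x))
      ((fderiv ℝ (F.u t) (F.g t a)).comp (fderiv ℝ (F.g t) a)) a := hu.comp a hg
  have h10 : (fun x : ℂ => fderiv ℝ G (t, x) ((1 : ℝ), (0 : ℂ))) =ᶠ[nhds a] fun x => F.u t (F.g t x) := by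
    filter_upwards [(isOpen_dom h).mem_nhds ha] with x hx
    have h11 := (F.g_ode t ht x (Or.inl hx)).deriv
    rw [angular_deriv_time F.g F.smooth_g] at h11
    rw [hG]
    exact h11
  have h12 := (h9.congr_of_eventuallyEq h10).unique h7
  have h13 := congrArg (fun L : ℂ →L[ℝ] ℂ => L v) h12
  simp only [ContinuousLinearMap.comp_apply, ContinuousLinearMap.flip_apply,
    ContinuousLinearMap.inr_apply] at h13
  exact h13.symm

theorem grad_path (h : IsRadial ρ) (hT : 0 < T) (F : PerfectFlow ρ T) {a : ℂ} (ha : a ∈ dom ρ) :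
    IsPath T (curl (F.u 0) a) (fun t => Ag F t a) (fun t => Bg F t a) (fun t => Sg F t a) := by
  have hmem : ∀ t ∈ Icc (0 : ℝ) T, F.g t a ∈ dom ρ := fun t ht => (F.g_dom t ht).mapsTo ha
  have hL : ∀ t ∈ Icc (0 : ℝ) T, al (fderiv ℝ (F.u t) (F.g t a)) =
      ((curl (F.u 0) a / 2 : ℝ) : ℂ) * I := by
    intro t ht
    rw [al_of_div (F.div_free t ht _ (Or.inl (hmem t ht))), curl_transport h F ht ha]
  have hpair : Continuous (fun t : ℝ => ((t, a) : ℝ × ℂ)) := continuous_id.prodMk continuous_const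
  have hid : fderiv ℝ (F.g 0) a = ContinuousLinearMap.id ℝ ℂ := by
    have h1 : F.g 0 =ᶠ[nhds a] fun x => x := by
      filter_upwards [(isOpen_dom h).mem_nhds ha] with x hx
      exact F.g_zero x (Or.inl hx)
    rw [h1.fderiv_eq]
    exact fderiv_id'
  refine ⟨hT, ?_, ?_, (Sg_continuous F).comp hpair, (Ag_continuous F).comp hpair,
    (Bg_continuous F).comp hpair, ?_, ?_, ?_⟩
  · intro t ht
    have h1 := grad_ode h F ha ht 1
    have h2 := grad_ode h F ha ht I
    have h3 := (h1.sub (h2.const_mul I)).div_const 2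
    refine h3.congr_deriv ?_
    have h4 := al_comp (fderiv ℝ (F.u t) (F.g t a)) (fderiv ℝ (F.g t) a)
    rw [hL t ht] at h4
    exact h4
  · intro t ht
    have h1 := grad_ode h F ha ht 1
    have h2 := grad_ode h F ha ht I
    have h3 := (h1.add (h2.const_mul I)).div_const 2
    refine h3.congr_deriv ?_
    have h4 := be_comp (fderiv ℝ (F.u t) (F.g t a)) (fderiv ℝ (F.g t) a)
    rw [hL t ht] at h4
    exact h4
  · show al (fderiv ℝ (F.g 0) a) = 1
    rw [hid]
    unfold al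
    simp
  · show be (fderiv ℝ (F.g 0) a) = 0
    rw [hid]
    unfold be
    simp
  · intro t ht
    show ‖al (fderiv ℝ (F.g t) a)‖ ^ 2 - ‖be (fderiv ℝ (F.g t) a)‖ ^ 2 = 1
    rw [← det_eq]
    exact F.g_det t ht a (Or.inl ha)

end Pool.Agent.Helper5.VL
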