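import Pool.Agent.Helper5.VL.Grad

/-!
VL-4. The continuous argument of the conformal part differs from the principal argument by a constant multiple of `2π`.
-/

set_option autoImplicit false

namespace Pool.Agent.Helper5.VL

open Complex MeasureTheory Set Pool.Agent.Helper61.EF ComplexConjugate

variable {ρ : ℝ → ℝ} {T : ℝ}

noncomputable def phg (F : PerfectFlow ρ T) (a : ℂ) : ℝ :=
  ph (curl (F.u 0) a) (fun t => Ag F t a) (fun t => Bg F t a) (fun t => Sg F t a) T

/-- A globally continuous integrand. -/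
private noncomputable def Kf (F : PerfectFlow ρ T) (a : ℂ) (t : ℝ) : ℝ :=
  curl (F.u 0) a / 2 + (Sg F t a * conj (Bg F t a) * conj (Ag F t a)).im / max 1 (‖Ag F t a‖ ^ 2)

theorem curl_continuous (F : PerfectFlow ρ T) : Continuous (curl (F.u 0)) := by
  have h8 : ContDiff ℝ 2 (F.u 0) := F.smooth_u.comp (contDiff_prodMk_right 0)
  have hfu : Continuous (fderiv ℝ (F.u 0)) := h8.continuous_fderiv (by norm_num)
  unfold curl
  have e1 : Continuous fun x => fderiv ℝ (F.u 0) x 1 := hfu.clm_apply continuous_const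
  have e2 : Continuous fun x => fderiv ℝ (F.u 0) x I := hfu.clm_apply continuous_const
  fun_prop

private lemma Kf_continuous (F : PerfectFlow ρ T) : Continuous (Function.uncurry (Kf F)) := by
  have hs : Continuous (fun q : ℂ × ℝ => (q.2, q.1)) := continuous_swap
  have hA : Continuous (fun q : ℂ × ℝ => Ag F q.2 q.1) := (Ag_continuous F).comp hs
  have hB : Continuous (fun q : ℂ × ℝ => Bg F q.2 q.1) := (Bg_continuous F).comp hs
  have hS : Continuous (fun q : ℂ × ℝ => Sg F q.2 q.1) := (Sg_continuous F).comp hs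
  have hc : Continuous (fun q : ℂ × ℝ => curl (F.u 0) q.1) := (curl_continuous F).comp continuous_fst
  have hm : Continuous (fun q : ℂ × ℝ => max 1 (‖Ag F q.2 q.1‖ ^ 2)) :=
    continuous_const.max (hA.norm.pow 2)
  have hnum : Continuous (fun q : ℂ × ℝ => (Sg F q.2 q.1 * conj (Bg F q.2 q.1) * conj (Ag F q.2 q.1)).im) :=
    Complex.continuous_im.comp ((hS.mul (Complex.continuous_conj.comp hB)).mul
      (Complex.continuous_conj.comp hA))
  exact (hc.div_const 2).add (hnum.div hm fun q => (lt_of_lt_of_le one_pos (le_max_left _ _)).ne')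

private lemma Kf_eq {F : PerfectFlow ρ T} {a : ℂ}
    (hp : IsPath T (curl (F.u 0) a) (fun t => Ag F t a) (fun t => Bg F t a) (fun t => Sg F t a)) {t : ℝ}
    (ht : t ∈ Icc (0 : ℝ) T) :
    curl (F.u 0) a / 2 + (Sg F t a * conj (Bg F t a) / Ag F t a).im = Kf F a t := by
  unfold Kf
  have hd := hp.hdet t ht
  have h1 : 1 ≤ ‖Ag F t a‖ ^ 2 := by nlinarith [sq_nonneg ‖Bg F t a‖]
  rw [max_eq_right h1]
  have hne : Ag F t a ≠ 0 := by
    intro h0
    rw [h0, norm_zero] at h1
    norm_num at h1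
  have h2 : Sg F t a * conj (Bg F t a) / Ag F t a =
      (Sg F t a * conj (Bg F t a) * conj (Ag F t a)) / ((‖Ag F t a‖ ^ 2 : ℝ) : ℂ) := by
    have h3 : ((‖Ag F t a‖ ^ 2 : ℝ) : ℂ) = Ag F t a * conj (Ag F t a) := by
      rw [Complex.mul_conj, Complex.normSq_eq_norm_sq]
    have h4 : conj (Ag F t a) ≠ 0 := (map_ne_zero _).2 hne
    rw [h3]
    field_simp
  rw [h2, Complex.div_ofReal_im]

private lemma phg_eq (h : IsRadial ρ) (hT : 0 < T) (F : PerfectFlow ρ T) {a : ℂ} (ha : a ∈ dom ρ) :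
    phg F a = ∫ t in (0 : ℝ)..T, Kf F a t := by
  have hp := grad_path h hT F ha
  unfold phg ph
  refine intervalIntegral.integral_congr fun t ht => ?_
  rw [uIcc_of_le hT.le] at ht
  exact Kf_eq hp ht

/-- The continuous argument of the conformal part along a particle path. -/
theorem exists_lift (h : IsRadial ρ) (hT : 0 < T) (F : PerfectFlow ρ T) {a : ℂ} (ha : a ∈ dom ρ) :
    ∃ φ : ℝ → ℝ, Continuous φ ∧ φ 0 = 0 ∧
      (∀ t ∈ Icc (0 : ℝ) T, Ag F t a = (‖Ag F t a‖ : ℂ) * Complex.exp ((φ t : ℂ) * I)) ∧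
      φ T = phg F a := by
  have hp := grad_path h hT F ha
  have hK : Continuous (Kf F a) := (Kf_continuous F).comp (continuous_const.prodMk continuous_id)
  refine ⟨fun t => ∫ s in (0 : ℝ)..t, Kf F a s,
    intervalIntegral.continuous_primitive (fun _ _ => hK.intervalIntegrable _ _) 0,
    intervalIntegral.integral_same, fun t ht => ?_, (phg_eq h hT F ha).symm⟩
  have h1 := path_alpha hp ht
  have h2 : ph (curl (F.u 0) a) (fun t => Ag F t a) (fun t => Bg F t a) (fun t => Sg F t a) t =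
      ∫ s in (0 : ℝ)..t, Kf F a s := by
    unfold ph
    refine intervalIntegral.integral_congr fun s hs => ?_
    rw [uIcc_of_le ht.1] at hs
    exact Kf_eq hp ⟨hs.1, hs.2.trans ht.2⟩
  rw [h2] at h1
  exact h1

private lemma dom_preconnected : IsPreconnected (dom ρ) := by
  refine isPreconnected_of_forall (0 : ℂ) fun y hy => ?_
  refine ⟨(fun s : ℝ => (s : ℂ) * y) '' Icc (0 : ℝ) 1, ?_, ?_, ?_, ?_⟩
  · rintro x ⟨s, hs, rfl⟩
    obtain ⟨s0, θ, h0, h1, rfl⟩ := hy
    refine ⟨s * s0, θ, mul_nonneg hs.1 h0, ?_, ?_⟩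
    · nlinarith [hs.1, hs.2]
    · push_cast
      ring
  · exact ⟨0, ⟨le_rfl, zero_le_one⟩, by simp⟩
  · exact ⟨1, ⟨zero_le_one, le_rfl⟩, by simp⟩
  · exact isPreconnected_Icc.image _ (by fun_prop)

/-- The conformal part of the derivative of the end map, turned back by `θ₀`. -/
noncomputable def Zt (F : PerfectFlow ρ T) (θ₀ : ℝ) (a : ℂ) : ℂ :=
  Complex.exp (((-θ₀ : ℝ) : ℂ) * I) * Ag F T a

theorem norm_Zt (F : PerfectFlow ρ T) (θ₀ : ℝ) (a : ℂ) : ‖Zt F θ₀ a‖ = ‖Ag F T a‖ := by
  unfold Zt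
  rw [norm_mul, Complex.norm_exp_ofReal_mul_I, one_mul]

theorem lift_const (h : IsRadial ρ) (hT : 0 < T) (F : PerfectFlow ρ T) (θ₀ : ℝ)
    (hre : ∀ a ∈ dom ρ, -1 < (Zt F θ₀ a).re) :
    ∃ k : ℤ, ∀ a ∈ dom ρ, phg F a = Complex.arg (Zt F θ₀ a) + θ₀ + 2 * Real.pi * k := by
  have hTT : T ∈ Icc (0 : ℝ) T := ⟨hT.le, le_rfl⟩
  have h1 : ∀ a ∈ dom ρ, 1 ≤ ‖Zt F θ₀ a‖ := by
    intro a ha
    have hd := (grad_path h hT F ha).hdet T hTT
    rw [norm_Zt]
    nlinarith [sq_nonneg ‖Bg F T a‖, norm_nonneg (Ag F T a)]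
  have hk : ∀ a ∈ dom ρ, ∃ n : ℤ, phg F a = Complex.arg (Zt F θ₀ a) + θ₀ + 2 * Real.pi * n := by
    intro a ha
    have h2 := path_alpha (grad_path h hT F ha) hTT
    have h3 := Complex.norm_mul_exp_arg_mul_I (Zt F θ₀ a)
    have h4 : (‖Zt F θ₀ a‖ : ℂ) ≠ 0 := by
      have := h1 a ha
      exact_mod_cast (by linarith : (0 : ℝ) < ‖Zt F θ₀ a‖).ne'
    have h5 : Complex.exp (((phg F a - θ₀ : ℝ) : ℂ) * I) =
        Complex.exp ((Complex.arg (Zt F θ₀ a) : ℂ) * I) := by
      apply mul_left_cancel₀ h4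
      rw [h3]
      have h6 : Zt F θ₀ a = Complex.exp (((-θ₀ : ℝ) : ℂ) * I) *
          ((‖Ag F T a‖ : ℂ) * Complex.exp ((phg F a : ℂ) * I)) := by
        unfold Zt
        congr 1
      rw [norm_Zt, h6]
      have h7 : (((phg F a - θ₀ : ℝ) : ℂ) * I) = ((-θ₀ : ℝ) : ℂ) * I + (phg F a : ℂ) * I := by
        push_cast
        ring
      rw [h7, Complex.exp_add]
      ring
    obtain ⟨n, hn⟩ := Complex.exp_eq_exp_iff_exists_int.1 h5
    refine ⟨n, ?_⟩
    have h6 := congrArg Complex.im hn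
    simp at h6
    linarith
  choose! k hk using hk
  have hcont : ContinuousOn (fun a => phg F a) (dom ρ) := by
    have h2 : Continuous (fun a => ∫ t in (0 : ℝ)..T, Kf F a t) :=
      intervalIntegral.continuous_parametric_intervalIntegral_of_continuous' (Kf_continuous F) 0 T
    exact h2.continuousOn.congr fun a ha => phg_eq h hT F ha
  have harg : ContinuousOn (fun a => Complex.arg (Zt F θ₀ a)) (dom ρ) := by
    intro a ha
    have hA : Continuous (fun a => Zt F θ₀ a) :=
      continuous_const.mul ((Ag_continuous F).comp (continuous_const.prodMk continuous_id))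
    have hs : Zt F θ₀ a ∈ Complex.slitPlane := by
      rw [Complex.mem_slitPlane_iff]
      by_cases him : (Zt F θ₀ a).im = 0
      · left
        have h2 := h1 a ha
        have h3 := hre a ha
        have h4 : ‖Zt F θ₀ a‖ = |(Zt F θ₀ a).re| := by
          conv_lhs => rw [← Complex.re_add_im (Zt F θ₀ a), him]
          simp
        rw [h4] at h2
        rcases abs_cases (Zt F θ₀ a).re with hh | hh
        · linarith
        · linarith
      · right
        exact him
    exact ((Complex.continuousAt_arg hs).comp hA.continuousAt).continuousWithinAt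
  have hkc : ContinuousOn (fun a => (k a : ℝ)) (dom ρ) := by
    have h2 : ContinuousOn (fun a => (phg F a - Complex.arg (Zt F θ₀ a) - θ₀) / (2 * Real.pi)) (dom ρ) :=
      ((hcont.sub harg).sub continuousOn_const).div_const _
    refine h2.congr fun a ha => ?_
    have hpi : (2 * Real.pi) ≠ 0 := by positivity
    simp only
    rw [hk a ha]
    field_simp
    ring
  have hkc' : ContinuousOn k (dom ρ) := by
    have hemb : Topology.IsClosedEmbedding ((↑) : ℤ → ℝ) := Int.isClosedEmbedding_coe_real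
    exact hemb.isInducing.continuousOn_iff.2 hkc
  refine ⟨k 0, fun a ha => ?_⟩
  rw [hk a ha]
  have : k a = k 0 := dom_preconnected.constant hkc' ha zero_mem_dom
  rw [this]

end Pool.Agent.Helper5.VL
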