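import Mathlib

/-!
VL-2. Numerical lemma. `N = arctan ‖β_T‖` and `Θ` come from the end map, `S = ∫ ‖σ‖`, `W = T w / 2 - 2 π k`, `y = |T w / 2 - φ(T)| = |W - Θ|`.
-/

set_option autoImplicit false

namespace Pool.Agent.Helper5.VL

open Complex Set

/-- The constant of the particle inequality. -/
noncomputable def W0 (η : ℝ) : ℝ := (2 * η * Real.cos η + Real.pi) / (1 - Real.cos η)

noncomputable def KK (η : ℝ) : ℝ := W0 η ^ 2 + 4 * η * W0 η

private lemma cos_facts {η : ℝ} (hη : 0 < η) (hη1 : η ≤ Real.pi / 4) :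
    0 < Real.cos η ∧ Real.cos η < 1 := by
  have hpi := Real.pi_pos
  constructor
  · exact Real.cos_pos_of_mem_Ioo ⟨by linarith, by linarith⟩
  · rw [← Real.cos_zero]
    exact Real.cos_lt_cos_of_nonneg_of_le_pi le_rfl (by linarith) hη

theorem W0_pos {η : ℝ} (hη : 0 < η) (hη1 : η ≤ Real.pi / 4) : 0 < W0 η := by
  obtain ⟨h1, h2⟩ := cos_facts hη hη1
  unfold W0
  have hpi := Real.pi_pos
  apply div_pos
  · positivity
  · linarith

theorem num {η S y W Θ N : ℝ} (hη : 0 < η) (hη1 : η ≤ Real.pi / 4) (hS : 0 ≤ S) (hN : 0 ≤ N)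
    (hy : |W| - |Θ| ≤ y) (hΘ : |Θ| + N ≤ Real.pi - 4 * η)
    (h : y + 2 * (Real.pi / 2 - η) - N ≤ S ∨ y ≤ S * Real.cos η) :
    W ^ 2 + 4 * η * |W| - KK η ≤ S ^ 2 := by
  obtain ⟨hc0, hc1⟩ := cos_facts hη hη1
  have hW0 := W0_pos hη hη1
  have hpi := Real.pi_pos
  have hWn := abs_nonneg W
  have hsq : W ^ 2 = |W| ^ 2 := (sq_abs W).symm
  have hK : 0 ≤ KK η := by unfold KK; positivity
  have main : |W| + 2 * η ≤ S → W ^ 2 + 4 * η * |W| - KK η ≤ S ^ 2 := by
    intro h1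
    rw [hsq]
    nlinarith [mul_self_le_mul_self (by positivity : 0 ≤ |W| + 2 * η) h1, sq_nonneg η]
  rcases h with h | h
  · exact main (by linarith)
  · by_cases hW : W0 η ≤ |W|
    · apply main
      have h1 : W0 η * (1 - Real.cos η) = 2 * η * Real.cos η + Real.pi := by
        unfold W0
        rw [div_mul_cancel₀ _ (by linarith)]
      have h2 : 2 * η * Real.cos η + Real.pi ≤ |W| * (1 - Real.cos η) := by
        rw [← h1]
        exact mul_le_mul_of_nonneg_right hW (by linarith)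
      have h3 : |W| - Real.pi ≤ S * Real.cos η := by linarith [abs_nonneg Θ]
      have h4 : (|W| + 2 * η) * Real.cos η ≤ S * Real.cos η := by nlinarith
      exact le_of_mul_le_mul_right h4 hc0
    · push Not at hW
      have h1 : |W| ^ 2 + 4 * η * |W| ≤ KK η := by
        unfold KK
        nlinarith [mul_self_le_mul_self hWn hW.le]
      rw [hsq]
      nlinarith [sq_nonneg S]

theorem ang_gap {α β : ℂ} {ε M : ℝ} (hε : 0 < ε) (hM : ‖α‖ ≤ M) (hdet : ‖α‖ ^ 2 - ‖β‖ ^ 2 = 1)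
    (hre : -1 + ε ≤ α.re) : |Complex.arg α| + Real.arctan ‖β‖ ≤ Real.pi - ε / M := by
  have hpi := Real.pi_pos
  have ha1 : 1 ≤ ‖α‖ := by nlinarith [norm_nonneg α, sq_nonneg ‖β‖]
  have ha0 : 0 < ‖α‖ := by linarith
  have hcosN : Real.cos (Real.arctan ‖β‖) = 1 / ‖α‖ := by
    rw [Real.cos_arctan]
    congr 1
    rw [show 1 + ‖β‖ ^ 2 = ‖α‖ ^ 2 by linarith, Real.sqrt_sq ha0.le]
  have hcosΘ : Real.cos |Complex.arg α| = α.re / ‖α‖ := by
    rw [Real.cos_abs, Complex.cos_arg (norm_pos_iff.1 ha0)]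
  set N := Real.arctan ‖β‖ with hN
  set Θ := |Complex.arg α| with hΘ
  have hΘ0 : 0 ≤ Θ := abs_nonneg _
  have hΘ1 : Θ ≤ Real.pi := Complex.abs_arg_le_pi α
  have hN0 : 0 ≤ N := by
    rw [hN]
    exact Real.arctan_nonneg.2 (norm_nonneg _)
  have hN1 : N < Real.pi / 2 := Real.arctan_lt_pi_div_two _
  have h1 : Real.cos (Real.pi - N) = -(1 / ‖α‖) := by rw [Real.cos_pi_sub, hcosN]
  have h2 : ε / M ≤ Real.cos Θ - Real.cos (Real.pi - N) := by
    rw [hcosΘ, h1]
    have h3 : ε / M ≤ ε / ‖α‖ := div_le_div_of_nonneg_left hε.le ha0 hM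
    have h4 : ε / ‖α‖ ≤ α.re / ‖α‖ - -(1 / ‖α‖) := by
      rw [sub_neg_eq_add, ← add_div]
      exact div_le_div_of_nonneg_right (by linarith) ha0.le
    linarith
  have hM0 : 0 < M := by linarith
  have h5 : 0 < ε / M := by positivity
  have h6 : Θ < Real.pi - N := by
    by_contra hcon
    push Not at hcon
    have := Real.cos_le_cos_of_nonneg_of_le_pi (by linarith : 0 ≤ Real.pi - N) hΘ1 hcon
    linarith
  have h7 : Real.cos Θ - Real.cos (Real.pi - N) ≤ (Real.pi - N) - Θ := by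
    have h8 := Real.abs_cos_sub_cos_le Θ (Real.pi - N)
    have h9 := le_abs_self (Real.cos Θ - Real.cos (Real.pi - N))
    have h10 : |Θ - (Real.pi - N)| = (Real.pi - N) - Θ := by
      rw [abs_of_neg (by linarith)]
      ring
    linarith
  linarith

end Pool.Agent.Helper5.VL
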