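import Pool.Agent.Helper5.VL.Defs

/-!
VL-5. The `L²` norm of the strain against the `L²` norm of half of the relative vorticity, strictly convex domain.

Let `c = bc ρ`, `q = c' × c'' = ρ² + 2 ρ'² - ρ ρ''` (positive: the domain is strictly convex). If `u` is divergence
free and tangent, `u (c θ) = λ c'`, then for `v = u - Ω I x` we have `det (Dv) = (curl u/2 - Ω)² - ‖be (Du)‖²`,
`∫ det (Dv) = (1/2) ∮ v × dv` and `v × dv = λ² q - 2 Ω λ |c'|² + Ω² ρ² + Ω (λ ρ ρ')' ≥ Ω² (ρ² - |c'|⁴/q) + Ω (λ ρ ρ')'`.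
-/

set_option autoImplicit false

namespace Pool.Agent.Helper5.VL

open Complex MeasureTheory Set Pool.Agent.Helper61.EF ComplexConjugate

/-- The plane field with components `f`, `g`. -/
private noncomputable def mkW (f g : ℂ → ℝ) (x : ℂ) : ℂ := Complex.equivRealProdCLM.symm (f x, g x)

private lemma mkW_re (f g : ℂ → ℝ) (x : ℂ) : (mkW f g x).re = f x := by
  simp [mkW]

private lemma mkW_im (f g : ℂ → ℝ) (x : ℂ) : (mkW f g x).im = g x := by
  simp [mkW]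

private lemma mkW_contDiff {f g : ℂ → ℝ} (hf : ContDiff ℝ 1 f) (hg : ContDiff ℝ 1 g) :
    ContDiff ℝ 1 (mkW f g) :=
  (Complex.equivRealProdCLM.symm : (ℝ × ℝ) ≃L[ℝ] ℂ).contDiff.comp (hf.prodMk hg)

private lemma div_mkW {f g : ℂ → ℝ} {f' g' : ℂ →L[ℝ] ℝ} {x : ℂ} (hf : HasFDerivAt f f' x)
    (hg : HasFDerivAt g g' x) : div (mkW f g) x = f' 1 + g' I := by
  have h : HasFDerivAt (mkW f g)
      (((Complex.equivRealProdCLM.symm : (ℝ × ℝ) ≃L[ℝ] ℂ) : (ℝ × ℝ) →L[ℝ] ℂ).comp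
        (f'.prod g')) x :=
    ((Complex.equivRealProdCLM.symm : (ℝ × ℝ) ≃L[ℝ] ℂ).hasFDerivAt).comp x (hf.prodMk hg)
  unfold div
  rw [h.fderiv]
  simp

theorem det_re_im (L : ℂ →L[ℝ] ℂ) :
    (L 1).re * (L I).im - (L I).re * (L 1).im = ‖al L‖ ^ 2 - ‖be L‖ ^ 2 := by
  rw [← normSq_eq_norm_sq, ← normSq_eq_norm_sq, normSq_apply, normSq_apply]
  unfold al be
  have e2 : ∀ w : ℂ, (w / 2).re = w.re / 2 := fun w => by
    rw [show w / 2 = w / ((2 : ℝ) : ℂ) by norm_num, div_ofReal_re]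
  have e3 : ∀ w : ℂ, (w / 2).im = w.im / 2 := fun w => by
    rw [show w / 2 = w / ((2 : ℝ) : ℂ) by norm_num, div_ofReal_im]
  simp only [e2, e3, sub_re, sub_im, add_re, add_im, mul_re, mul_im, I_re, I_im]
  ring

/-- The null Lagrangian `det Dv` in terms of the boundary values. -/
theorem det_formula {ρ : ℝ → ℝ} (h : IsRadial ρ) (v : ℂ → ℂ) (hv : ContDiff ℝ 2 v) :
    ∫ x in dom ρ, (‖al (fderiv ℝ v x)‖ ^ 2 - ‖be (fderiv ℝ v x)‖ ^ 2) =
      (1 / 2) * ∫ θ in (0 : ℝ)..(2 * Real.pi), cross (v (bc ρ θ)) (fderiv ℝ v (bc ρ θ) (deriv (bc ρ) θ)) := by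
  set p : ℂ → ℝ := fun x => (v x).re with hp
  set q : ℂ → ℝ := fun x => (v x).im with hq
  have hp2 : ContDiff ℝ 2 p := Complex.reCLM.contDiff.comp hv
  have hq2 : ContDiff ℝ 2 q := Complex.imCLM.contDiff.comp hv
  have hvd : ∀ x, HasFDerivAt v (fderiv ℝ v x) x := fun x =>
    (hv.differentiable (by norm_num) x).hasFDerivAt
  have hpd : ∀ x, HasFDerivAt p (Complex.reCLM.comp (fderiv ℝ v x)) x := fun x =>
    Complex.reCLM.hasFDerivAt.comp x (hvd x)
  have hqd : ∀ x, HasFDerivAt q (Complex.imCLM.comp (fderiv ℝ v x)) x := fun x =>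
    Complex.imCLM.hasFDerivAt.comp x (hvd x)
  have hq' : ContDiff ℝ 1 (fderiv ℝ q) := hq2.fderiv_right (by norm_num)
  have hqc : ∀ c : ℂ, ContDiff ℝ 1 (fun x => fderiv ℝ q x c) := fun c => hq'.clm_apply contDiff_const
  have hqcd : ∀ (c x d : ℂ), fderiv ℝ (fun y => fderiv ℝ q y c) x d = fderiv ℝ (fderiv ℝ q) x d c := by
    intro c x d
    have h1 : HasFDerivAt (fderiv ℝ q) (fderiv ℝ (fderiv ℝ q) x) x :=
      (hq'.differentiable one_ne_zero x).hasFDerivAt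
    have h2 := h1.clm_apply (hasFDerivAt_const c x)
    rw [h2.fderiv]
    simp
  have hsym : ∀ x : ℂ, fderiv ℝ (fderiv ℝ q) x 1 I = fderiv ℝ (fderiv ℝ q) x I 1 := fun x =>
    (hq2.contDiffAt.isSymmSndFDerivAt (by simp)) 1 I
  set W := mkW (fun x => p x * fderiv ℝ q x I) (fun x => -(p x * fderiv ℝ q x 1)) with hW
  have hWc : ContDiff ℝ 1 W :=
    mkW_contDiff ((hp2.of_le (by norm_num)).mul (hqc I)) ((hp2.of_le (by norm_num)).mul (hqc 1)).neg
  have hdivW : ∀ x, div W x = ‖al (fderiv ℝ v x)‖ ^ 2 - ‖be (fderiv ℝ v x)‖ ^ 2 := by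
    intro x
    have hI : HasFDerivAt (fun y => fderiv ℝ q y I) (fderiv ℝ (fun y => fderiv ℝ q y I) x) x :=
      ((hqc I).differentiable one_ne_zero x).hasFDerivAt
    have h1 : HasFDerivAt (fun y => fderiv ℝ q y 1) (fderiv ℝ (fun y => fderiv ℝ q y 1) x) x :=
      ((hqc 1).differentiable one_ne_zero x).hasFDerivAt
    have h2 := div_mkW (f := fun x => p x * fderiv ℝ q x I) (g := fun x => -(p x * fderiv ℝ q x 1))
      ((hpd x).mul hI) ((hpd x).mul h1).neg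
    rw [hW, h2, ← det_re_im]
    simp only [_root_.add_apply, _root_.smul_apply, _root_.neg_apply, ContinuousLinearMap.comp_apply,
      Complex.reCLM_apply, smul_eq_mul, hqcd, (hqd x).fderiv, Complex.imCLM_apply]
    rw [hsym x]
    ring
  have hfl := flux h W hWc
  have hL : ∫ x in dom ρ, (‖al (fderiv ℝ v x)‖ ^ 2 - ‖be (fderiv ℝ v x)‖ ^ 2) =
      ∫ x in dom ρ, div W x :=
    setIntegral_congr_fun (measurableSet_dom h) fun x _ => (hdivW x).symm
  rw [hL, hfl]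
  -- the boundary integral
  set c := bc ρ with hc
  have hcd : ∀ θ, HasDerivAt c (deriv c θ) θ := fun θ =>
    (((bc_contDiff h).differentiable one_ne_zero) θ).hasDerivAt
  have hc' : Continuous (deriv c) := (bc_contDiff h).continuous_deriv le_rfl
  have hcc : Continuous c := (bc_contDiff h).continuous
  set P : ℝ → ℝ := fun θ => p (c θ) with hP
  set Q : ℝ → ℝ := fun θ => q (c θ) with hQ
  set P' : ℝ → ℝ := fun θ => fderiv ℝ p (c θ) (deriv c θ) with hP'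
  set Q' : ℝ → ℝ := fun θ => fderiv ℝ q (c θ) (deriv c θ) with hQ'
  have hPd : ∀ θ, HasDerivAt P (P' θ) θ := fun θ =>
    ((hp2.differentiable (by norm_num) (c θ)).hasFDerivAt).comp_hasDerivAt θ (hcd θ)
  have hQd : ∀ θ, HasDerivAt Q (Q' θ) θ := fun θ =>
    ((hq2.differentiable (by norm_num) (c θ)).hasFDerivAt).comp_hasDerivAt θ (hcd θ)
  have hP'c : Continuous P' :=
    ((hp2.continuous_fderiv (by norm_num)).comp hcc).clm_apply hc'
  have hQ'c : Continuous Q' :=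
    ((hq2.continuous_fderiv (by norm_num)).comp hcc).clm_apply hc'
  have hPc : Continuous P := hp2.continuous.comp hcc
  have hQc : Continuous Q := hq2.continuous.comp hcc
  have h1 : ∀ θ, cross (W (c θ)) (deriv c θ) = P θ * Q' θ := by
    intro θ
    unfold cross
    rw [hW, mkW_re, mkW_im]
    have h2 : Q' θ = (deriv c θ).re * fderiv ℝ q (c θ) 1 + (deriv c θ).im * fderiv ℝ q (c θ) I := by
      have h3 : deriv c θ = (deriv c θ).re • (1 : ℂ) + (deriv c θ).im • I := by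
        apply Complex.ext <;> simp
      rw [hQ']
      simp only
      conv_lhs => rw [h3]
      rw [map_add, map_smul, map_smul, smul_eq_mul, smul_eq_mul]
    rw [h2, hP]
    ring
  have hper : ∀ θ, c (θ + 2 * Real.pi) = c θ := fun θ => bc_periodic h θ
  have h2pi : c (2 * Real.pi) = c 0 := by
    have := hper 0
    rwa [zero_add] at this
  have h3 : ∫ θ in (0 : ℝ)..(2 * Real.pi), (P' θ * Q θ + P θ * Q' θ) = 0 := by
    have h4 := intervalIntegral.integral_eq_sub_of_hasDerivAt (a := 0) (b := 2 * Real.pi)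
      (f := fun θ => P θ * Q θ) (f' := fun θ => P' θ * Q θ + P θ * Q' θ)
      (fun θ _ => (hPd θ).mul (hQd θ))
      (((hP'c.mul hQc).add (hPc.mul hQ'c)).intervalIntegrable _ _)
    rw [h4]
    simp only [hP, hQ, h2pi, sub_self]
  have h4 : ∫ θ in (0 : ℝ)..(2 * Real.pi), (P' θ * Q θ + P θ * Q' θ) =
      (∫ θ in (0 : ℝ)..(2 * Real.pi), P' θ * Q θ) + ∫ θ in (0 : ℝ)..(2 * Real.pi), P θ * Q' θ :=
    intervalIntegral.integral_add (μ := volume) (f := fun θ => P' θ * Q θ) (g := fun θ => P θ * Q' θ)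
      ((hP'c.mul hQc).intervalIntegrable _ _) ((hPc.mul hQ'c).intervalIntegrable _ _)
  have h5 : ∫ θ in (0 : ℝ)..(2 * Real.pi), (P θ * Q' θ - P' θ * Q θ) =
      (∫ θ in (0 : ℝ)..(2 * Real.pi), P θ * Q' θ) - ∫ θ in (0 : ℝ)..(2 * Real.pi), P' θ * Q θ :=
    intervalIntegral.integral_sub (μ := volume) (f := fun θ => P θ * Q' θ) (g := fun θ => P' θ * Q θ)
      ((hPc.mul hQ'c).intervalIntegrable _ _) ((hP'c.mul hQc).intervalIntegrable _ _)
  have h6 : (∫ θ in (0 : ℝ)..(2 * Real.pi), cross (v (c θ)) (fderiv ℝ v (c θ) (deriv c θ))) =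
      ∫ θ in (0 : ℝ)..(2 * Real.pi), (P θ * Q' θ - P' θ * Q θ) := by
    refine intervalIntegral.integral_congr fun θ _ => ?_
    have e1 : P' θ = (fderiv ℝ v (c θ) (deriv c θ)).re := by
      show fderiv ℝ p (c θ) (deriv c θ) = _
      rw [(hpd (c θ)).fderiv]
      rfl
    have e2 : Q' θ = (fderiv ℝ v (c θ) (deriv c θ)).im := by
      show fderiv ℝ q (c θ) (deriv c θ) = _
      rw [(hqd (c θ)).fderiv]
      rfl
    show (v (c θ)).re * (fderiv ℝ v (c θ) (deriv c θ)).im - (v (c θ)).im * (fderiv ℝ v (c θ) (deriv c θ)).re =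
      P θ * Q' θ - P' θ * Q θ
    rw [e1, e2]
    show (v (c θ)).re * (fderiv ℝ v (c θ) (deriv c θ)).im - (v (c θ)).im * (fderiv ℝ v (c θ) (deriv c θ)).re =
      (v (c θ)).re * (fderiv ℝ v (c θ) (deriv c θ)).im - (fderiv ℝ v (c θ) (deriv c θ)).re * (v (c θ)).im
    ring
  have h7 : (∫ θ in (0 : ℝ)..(2 * Real.pi), cross (W (c θ)) (deriv c θ)) =
      ∫ θ in (0 : ℝ)..(2 * Real.pi), P θ * Q' θ :=
    intervalIntegral.integral_congr fun θ _ => h1 θ
  rw [h7, h6, h5]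
  rw [h4] at h3
  linarith


/-- `ρ² + 2 ρ'² - ρ ρ''`, positive if and only if the curvature of the boundary is positive. -/
noncomputable def cv (ρ : ℝ → ℝ) (θ : ℝ) : ℝ :=
  ρ θ ^ 2 + 2 * deriv ρ θ ^ 2 - ρ θ * deriv (deriv ρ) θ

/-- Half of the integral of the radius of curvature minus the area; `0` for a disc about the origin. -/
noncomputable def dl (ρ : ℝ → ℝ) : ℝ :=
  (1 / 2) * ∫ θ in (0 : ℝ)..(2 * Real.pi), ((ρ θ ^ 2 + deriv ρ θ ^ 2) ^ 2 / cv ρ θ - ρ θ ^ 2)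

theorem dl_const (R : ℝ) : dl (fun _ => R) = 0 := by
  unfold dl cv
  have h : ∀ θ : ℝ, ((R ^ 2 + deriv (fun _ : ℝ => R) θ ^ 2) ^ 2 /
      (R ^ 2 + 2 * deriv (fun _ : ℝ => R) θ ^ 2 - R * deriv (deriv (fun _ : ℝ => R)) θ) - R ^ 2) = 0 := by
    intro θ
    have h1 : deriv (fun _ : ℝ => R) = fun _ => 0 := by
      funext x
      exact deriv_const x R
    rw [h1]
    simp only [deriv_const]
    by_cases hR : R = 0
    · rw [hR]
      norm_num
    · field_simp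
      ring
  simp only [h, intervalIntegral.integral_zero, mul_zero]

private lemma boundary {ρ : ℝ → ℝ} (h : IsRadial ρ) (h2 : ContDiff ℝ 2 ρ) (hq : ∀ θ, 0 < cv ρ θ) (u : ℂ → ℂ)
    (hu : ContDiff ℝ 2 u) (htan : ∀ θ : ℝ, cross (u (bc ρ θ)) (deriv (bc ρ) θ) = 0) (Ω : ℝ) :
    -(2 * Ω ^ 2 * dl ρ) ≤ ∫ θ in (0 : ℝ)..(2 * Real.pi),
      cross (u (bc ρ θ) - (Ω : ℂ) * (I * bc ρ θ))
        (fderiv ℝ u (bc ρ θ) (deriv (bc ρ) θ) - (Ω : ℂ) * (I * deriv (bc ρ) θ)) := by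
  have hρpos := h.2.2
  have hρ' : ContDiff ℝ 1 (deriv ρ) := by
    have h3 : ContDiff ℝ ((1 : WithTop ℕ∞) + 1) ρ := by
      rw [one_add_one_eq_two]
      exact h2
    exact (contDiff_succ_iff_deriv.1 h3).2.2
  have hρd : ∀ θ, HasDerivAt ρ (deriv ρ θ) θ := fun θ => (h.1.differentiable one_ne_zero θ).hasDerivAt
  have hρ'd : ∀ θ, HasDerivAt (deriv ρ) (deriv (deriv ρ) θ) θ := fun θ =>
    (hρ'.differentiable one_ne_zero θ).hasDerivAt
  have hc1 : ContDiff ℝ 1 (bc ρ) := bc_contDiff h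
  have hU1 : ContDiff ℝ 1 (fun θ => u (bc ρ θ)) := (hu.of_le (by norm_num)).comp hc1
  set lam : ℝ → ℝ := fun θ => cross (bc ρ θ) (u (bc ρ θ)) / ρ θ ^ 2 with hlam
  have hlam1 : ContDiff ℝ 1 lam := by
    have hnum : ContDiff ℝ 1 (fun θ => cross (bc ρ θ) (u (bc ρ θ))) := by
      unfold cross
      have r1 : ContDiff ℝ 1 (fun θ => (bc ρ θ).re) := Complex.reCLM.contDiff.comp hc1
      have r2 : ContDiff ℝ 1 (fun θ => (bc ρ θ).im) := Complex.imCLM.contDiff.comp hc1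
      have r3 : ContDiff ℝ 1 (fun θ => (u (bc ρ θ)).re) := Complex.reCLM.contDiff.comp hU1
      have r4 : ContDiff ℝ 1 (fun θ => (u (bc ρ θ)).im) := Complex.imCLM.contDiff.comp hU1
      exact (r1.mul r4).sub (r2.mul r3)
    exact hnum.div (h.1.pow 2) fun θ => (pow_pos (hρpos θ) 2).ne'
  have hU : ∀ θ, u (bc ρ θ) = (lam θ : ℂ) * ((((deriv ρ θ : ℝ) : ℂ) + ((ρ θ : ℝ) : ℂ) * I) *
      Complex.exp ((θ : ℂ) * I)) := by
    intro θ
    have hne : deriv (bc ρ) θ ≠ 0 := by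
      intro h0
      have h1 := norm_deriv_bc_sq h θ
      rw [h0, norm_zero] at h1
      have := hρpos θ
      nlinarith [sq_nonneg (deriv ρ θ)]
    obtain ⟨l, hl⟩ := eq_smul_of_cross _ _ hne (htan θ)
    have h1 : lam θ = l := by
      show cross (bc ρ θ) (u (bc ρ θ)) / ρ θ ^ 2 = l
      have h3 : cross (bc ρ θ) ((l : ℂ) * deriv (bc ρ) θ) = l * cross (bc ρ θ) (deriv (bc ρ) θ) := by
        unfold cross
        rw [Complex.re_ofReal_mul, Complex.im_ofReal_mul]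
        ring
      rw [hl, h3, cross_bc h θ]
      exact mul_div_cancel_right₀ l (pow_pos (hρpos θ) 2).ne'
    rw [h1, hl, (hasDerivAt_bc h θ).deriv]
  have hlamd : ∀ θ, HasDerivAt lam (deriv lam θ) θ := fun θ =>
    (hlam1.differentiable one_ne_zero θ).hasDerivAt
  -- the derivative of `u ∘ c`
  have hU' : ∀ θ, fderiv ℝ u (bc ρ θ) (deriv (bc ρ) θ) =
      ((deriv lam θ : ℝ) : ℂ) * ((((deriv ρ θ : ℝ) : ℂ) + ((ρ θ : ℝ) : ℂ) * I) * Complex.exp ((θ : ℂ) * I)) +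
      ((lam θ : ℝ) : ℂ) * ((((deriv (deriv ρ) θ : ℝ) : ℂ) - ((ρ θ : ℝ) : ℂ) + 2 * ((deriv ρ θ : ℝ) : ℂ) * I) *
        Complex.exp ((θ : ℂ) * I)) := by
    intro θ
    have e1 : HasDerivAt (fun θ => u (bc ρ θ)) (fderiv ℝ u (bc ρ θ) (deriv (bc ρ) θ)) θ := by
      have := (hasDerivAt_bc h θ).differentiableAt.hasDerivAt
      exact ((hu.differentiable (by norm_num) (bc ρ θ)).hasFDerivAt).comp_hasDerivAt θ this
    have e2 : HasDerivAt (fun θ : ℝ => (lam θ : ℂ)) ((deriv lam θ : ℝ) : ℂ) θ := (hlamd θ).ofReal_comp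
    have e3 : HasDerivAt (fun θ : ℝ => ((deriv ρ θ : ℝ) : ℂ)) ((deriv (deriv ρ) θ : ℝ) : ℂ) θ :=
      (hρ'd θ).ofReal_comp
    have e4 : HasDerivAt (fun θ : ℝ => ((ρ θ : ℝ) : ℂ)) ((deriv ρ θ : ℝ) : ℂ) θ := (hρd θ).ofReal_comp
    have e5 : HasDerivAt (fun θ : ℝ => (θ : ℂ) * I) (1 * I) θ :=
      (HasDerivAt.ofReal_comp (hasDerivAt_id θ)).mul_const I
    have e6 : HasDerivAt (fun θ : ℝ => Complex.exp ((θ : ℂ) * I)) (Complex.exp ((θ : ℂ) * I) * (1 * I)) θ :=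
      e5.cexp
    have e7 := e2.mul ((e3.add (e4.mul_const I)).mul e6)
    have e8 : (fun θ => u (bc ρ θ)) = fun θ : ℝ => (lam θ : ℂ) * ((((deriv ρ θ : ℝ) : ℂ) +
        ((ρ θ : ℝ) : ℂ) * I) * Complex.exp ((θ : ℂ) * I)) := funext hU
    rw [e8] at e1
    rw [e1.unique e7]
    simp only [Pi.mul_apply, Pi.add_apply]
    linear_combination ((lam θ : ℂ) * Complex.exp ((θ : ℂ) * I) * (ρ θ : ℂ)) * I_mul_I
  -- the exact form
  set G : ℝ → ℝ := fun θ => lam θ * (ρ θ * deriv ρ θ) with hG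
  have hG1 : ContDiff ℝ 1 G := hlam1.mul (h.1.mul hρ')
  have hG' : ∀ θ, deriv G θ = deriv lam θ * (ρ θ * deriv ρ θ) +
      lam θ * (deriv ρ θ * deriv ρ θ + ρ θ * deriv (deriv ρ) θ) := fun θ =>
    ((hlamd θ).mul ((hρd θ).mul (hρ'd θ))).deriv
  have hρ'per : deriv ρ (2 * Real.pi) = deriv ρ 0 := by
    have h1 : deriv (fun x => ρ (x + 2 * Real.pi)) 0 = deriv ρ (0 + 2 * Real.pi) :=
      deriv_comp_add_const (f := ρ) (2 * Real.pi) 0
    rw [zero_add] at h1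
    rw [← h1]
    congr 1
    funext x
    exact h.2.1 x
  have hGper : G (2 * Real.pi) = G 0 := by
    have h1 : bc ρ (2 * Real.pi) = bc ρ 0 := by
      have := bc_periodic h 0
      rwa [zero_add] at this
    have h3 : ρ (2 * Real.pi) = ρ 0 := by
      have := h.2.1 0
      rwa [zero_add] at this
    simp only [hG, hlam, h1, h3, hρ'per]
  have hGint : ∫ θ in (0 : ℝ)..(2 * Real.pi), deriv G θ = 0 := by
    have h1 := intervalIntegral.integral_eq_sub_of_hasDerivAt (a := 0) (b := 2 * Real.pi)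
      (f := G) (f' := deriv G) (fun θ _ => (hG1.differentiable one_ne_zero θ).hasDerivAt)
      ((hG1.continuous_deriv le_rfl).intervalIntegrable _ _)
    rw [h1, hGper, sub_self]
  -- the pointwise inequality
  have hpt : ∀ θ, -(Ω ^ 2 * ((ρ θ ^ 2 + deriv ρ θ ^ 2) ^ 2 / cv ρ θ - ρ θ ^ 2)) + Ω * deriv G θ ≤
      cross (u (bc ρ θ) - (Ω : ℂ) * (I * bc ρ θ))
        (fderiv ℝ u (bc ρ θ) (deriv (bc ρ) θ) - (Ω : ℂ) * (I * deriv (bc ρ) θ)) := by
    intro θ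
    have hqθ := hq θ
    have key : cross (u (bc ρ θ) - (Ω : ℂ) * (I * bc ρ θ))
        (fderiv ℝ u (bc ρ θ) (deriv (bc ρ) θ) - (Ω : ℂ) * (I * deriv (bc ρ) θ)) =
        lam θ ^ 2 * cv ρ θ - 2 * Ω * lam θ * (ρ θ ^ 2 + deriv ρ θ ^ 2) + Ω ^ 2 * ρ θ ^ 2 + Ω * deriv G θ := by
      rw [hU' θ, hG' θ, hU θ, (hasDerivAt_bc h θ).deriv]
      have h1 : ‖Complex.exp ((θ : ℂ) * I)‖ ^ 2 = 1 := by rw [Complex.norm_exp_ofReal_mul_I, one_pow]
      rw [← Complex.normSq_eq_norm_sq, Complex.normSq_apply] at h1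
      unfold bc cross cv
      generalize Complex.exp ((θ : ℂ) * I) = e at *
      generalize deriv (deriv ρ) θ = r2
      generalize deriv ρ θ = r1
      generalize deriv lam θ = l1
      generalize lam θ = l0
      generalize ρ θ = r0
      simp only [Complex.mul_re, Complex.mul_im, Complex.add_re, Complex.add_im, Complex.sub_re,
        Complex.sub_im, Complex.ofReal_re, Complex.ofReal_im, Complex.I_re, Complex.I_im,
        Complex.re_ofNat, Complex.im_ofNat]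
      linear_combination (l0 ^ 2 * (r0 ^ 2 + 2 * r1 ^ 2 - r0 * r2) - 2 * Ω * l0 * (r0 ^ 2 + r1 ^ 2) +
        Ω ^ 2 * r0 ^ 2 + Ω * (l1 * (r0 * r1) + l0 * (r1 * r1 + r0 * r2))) * h1
    rw [key]
    have h3 : (ρ θ ^ 2 + deriv ρ θ ^ 2) ^ 2 / cv ρ θ * cv ρ θ = (ρ θ ^ 2 + deriv ρ θ ^ 2) ^ 2 :=
      div_mul_cancel₀ _ hqθ.ne'
    set D := (ρ θ ^ 2 + deriv ρ θ ^ 2) ^ 2 / cv ρ θ with hD
    have h4 : 0 ≤ (lam θ * cv ρ θ - Ω * (ρ θ ^ 2 + deriv ρ θ ^ 2)) ^ 2 := sq_nonneg _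
    have h5 : 0 ≤ lam θ ^ 2 * cv ρ θ - 2 * Ω * lam θ * (ρ θ ^ 2 + deriv ρ θ ^ 2) + Ω ^ 2 * D := by
      have h6 : (lam θ ^ 2 * cv ρ θ - 2 * Ω * lam θ * (ρ θ ^ 2 + deriv ρ θ ^ 2) + Ω ^ 2 * D) * cv ρ θ =
          (lam θ * cv ρ θ - Ω * (ρ θ ^ 2 + deriv ρ θ ^ 2)) ^ 2 := by
        linear_combination (Ω ^ 2) * h3
      by_contra hcon
      push Not at hcon
      have := mul_neg_of_neg_of_pos hcon hqθ
      linarith
    linarith
  have hcvc : Continuous (cv ρ) := by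
    unfold cv
    exact ((h.1.continuous.pow 2).add (continuous_const.mul (hρ'.continuous.pow 2))).sub
      (h.1.continuous.mul (hρ'.continuous_deriv le_rfl))
  have hDc : Continuous fun θ => (ρ θ ^ 2 + deriv ρ θ ^ 2) ^ 2 / cv ρ θ - ρ θ ^ 2 :=
    ((((h.1.continuous.pow 2).add (hρ'.continuous.pow 2)).pow 2).div hcvc fun θ => (hq θ).ne').sub
      (h.1.continuous.pow 2)
  have hL : Continuous fun θ => -(Ω ^ 2 * ((ρ θ ^ 2 + deriv ρ θ ^ 2) ^ 2 / cv ρ θ - ρ θ ^ 2)) + Ω * deriv G θ :=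
    (continuous_const.mul hDc).neg.add (continuous_const.mul (hG1.continuous_deriv le_rfl))
  have hfu : Continuous (fderiv ℝ u) := hu.continuous_fderiv (by norm_num)
  have hcc : Continuous (bc ρ) := hc1.continuous
  have hc'c : Continuous (deriv (bc ρ)) := hc1.continuous_deriv le_rfl
  have hRc : Continuous fun θ => cross (u (bc ρ θ) - (Ω : ℂ) * (I * bc ρ θ))
        (fderiv ℝ u (bc ρ θ) (deriv (bc ρ) θ) - (Ω : ℂ) * (I * deriv (bc ρ) θ)) := by
    have f1 : Continuous fun θ => u (bc ρ θ) - (Ω : ℂ) * (I * bc ρ θ) :=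
      (hU1.continuous).sub (continuous_const.mul (continuous_const.mul hcc))
    have f2 : Continuous fun θ => fderiv ℝ u (bc ρ θ) (deriv (bc ρ) θ) - (Ω : ℂ) * (I * deriv (bc ρ) θ) :=
      ((hfu.comp hcc).clm_apply hc'c).sub (continuous_const.mul (continuous_const.mul hc'c))
    unfold cross
    exact ((Complex.continuous_re.comp f1).mul (Complex.continuous_im.comp f2)).sub
      ((Complex.continuous_im.comp f1).mul (Complex.continuous_re.comp f2))
  have hmono := intervalIntegral.integral_mono_on (μ := volume) Real.two_pi_pos.le (hL.intervalIntegrable 0 (2 * Real.pi))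
    (hRc.intervalIntegrable 0 (2 * Real.pi)) fun θ _ => hpt θ
  refine le_trans (le_of_eq ?_) hmono
  have i1 : Continuous fun θ => -(Ω ^ 2 * ((ρ θ ^ 2 + deriv ρ θ ^ 2) ^ 2 / cv ρ θ - ρ θ ^ 2)) :=
    (continuous_const.mul hDc).neg
  have i2 : Continuous fun θ => Ω * deriv G θ := continuous_const.mul (hG1.continuous_deriv le_rfl)
  have i3 : (∫ θ in (0 : ℝ)..(2 * Real.pi),
      (-(Ω ^ 2 * ((ρ θ ^ 2 + deriv ρ θ ^ 2) ^ 2 / cv ρ θ - ρ θ ^ 2)) + Ω * deriv G θ)) =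
      (∫ θ in (0 : ℝ)..(2 * Real.pi), -(Ω ^ 2 * ((ρ θ ^ 2 + deriv ρ θ ^ 2) ^ 2 / cv ρ θ - ρ θ ^ 2))) +
        ∫ θ in (0 : ℝ)..(2 * Real.pi), Ω * deriv G θ :=
    intervalIntegral.integral_add (i1.intervalIntegrable _ _) (i2.intervalIntegrable _ _)
  rw [i3, intervalIntegral.integral_neg, intervalIntegral.integral_const_mul,
    intervalIntegral.integral_const_mul, hGint]
  unfold dl
  ring

theorem strain_le {ρ : ℝ → ℝ} (h : IsRadial ρ) (h2 : ContDiff ℝ 2 ρ) (hq : ∀ θ, 0 < cv ρ θ) (u : ℂ → ℂ)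
    (hu : ContDiff ℝ 2 u) (hdiv : ∀ x ∈ dom ρ ∪ bd ρ, div u x = 0)
    (htan : ∀ θ : ℝ, cross (u (bc ρ θ)) (deriv (bc ρ) θ) = 0) (Ω : ℝ) :
    ∫ x in dom ρ, ‖be (fderiv ℝ u x)‖ ^ 2 ≤
      (∫ x in dom ρ, (curl u x / 2 - Ω) ^ 2) + Ω ^ 2 * dl ρ := by
  set v : ℂ → ℂ := fun x => u x - (Ω : ℂ) * (I * x) with hv
  have hv2 : ContDiff ℝ 2 v := hu.sub (contDiff_const.mul (contDiff_const.mul contDiff_id))
  have hvd : ∀ x, fderiv ℝ v x = fderiv ℝ u x - ((Ω : ℂ) * I) • ContinuousLinearMap.id ℝ ℂ := by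
    intro x
    have h1 : HasFDerivAt u (fderiv ℝ u x) x := (hu.differentiable (by norm_num) x).hasFDerivAt
    have h2 : HasFDerivAt (fun x : ℂ => (Ω : ℂ) * (I * x)) (((Ω : ℂ) * I) • ContinuousLinearMap.id ℝ ℂ) x := by
      have h3 : (fun x : ℂ => (Ω : ℂ) * (I * x)) = fun x => ((Ω : ℂ) * I) * x := by
        funext x
        ring
      rw [h3]
      exact (hasFDerivAt_id x).const_mul ((Ω : ℂ) * I)
    exact (h1.sub h2).fderiv
  have hbe : ∀ x, be (fderiv ℝ v x) = be (fderiv ℝ u x) := by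
    intro x
    rw [hvd x]
    unfold be
    simp only [_root_.sub_apply, _root_.smul_apply, ContinuousLinearMap.id_apply, smul_eq_mul]
    linear_combination (-((Ω : ℂ) * I) / 2) * I_mul_I
  have hal : ∀ x, al (fderiv ℝ v x) = al (fderiv ℝ u x) - (Ω : ℂ) * I := by
    intro x
    rw [hvd x]
    unfold al
    simp only [_root_.sub_apply, _root_.smul_apply, ContinuousLinearMap.id_apply, smul_eq_mul]
    linear_combination (((Ω : ℂ) * I) / 2) * I_mul_I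
  have key := det_formula h v hv2
  have hb := boundary h h2 hq u hu htan Ω
  have hb2 : (∫ θ in (0 : ℝ)..(2 * Real.pi), cross (v (bc ρ θ)) (fderiv ℝ v (bc ρ θ) (deriv (bc ρ) θ))) =
      ∫ θ in (0 : ℝ)..(2 * Real.pi), cross (u (bc ρ θ) - (Ω : ℂ) * (I * bc ρ θ))
        (fderiv ℝ u (bc ρ θ) (deriv (bc ρ) θ) - (Ω : ℂ) * (I * deriv (bc ρ) θ)) := by
    refine intervalIntegral.integral_congr fun θ _ => ?_
    show cross (v (bc ρ θ)) (fderiv ℝ v (bc ρ θ) (deriv (bc ρ) θ)) =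
      cross (u (bc ρ θ) - (Ω : ℂ) * (I * bc ρ θ))
        (fderiv ℝ u (bc ρ θ) (deriv (bc ρ) θ) - (Ω : ℂ) * (I * deriv (bc ρ) θ))
    rw [hvd (bc ρ θ)]
    congr 1
    simp only [_root_.sub_apply, _root_.smul_apply, ContinuousLinearMap.id_apply, smul_eq_mul]
    ring
  rw [hb2] at key
  have h1 : ∀ x ∈ dom ρ, ‖al (fderiv ℝ v x)‖ ^ 2 - ‖be (fderiv ℝ v x)‖ ^ 2 =
      (curl u x / 2 - Ω) ^ 2 - ‖be (fderiv ℝ u x)‖ ^ 2 := by
    intro x hx
    rw [hbe, hal, al_of_div (hdiv x (Or.inl hx))]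
    congr 1
    rw [show ((curl u x / 2 : ℝ) : ℂ) * I - (Ω : ℂ) * I = ((curl u x / 2 - Ω : ℝ) : ℂ) * I by
      push_cast
      ring]
    rw [norm_mul, Complex.norm_I, mul_one, Complex.norm_real, Real.norm_eq_abs, sq_abs]
  rw [setIntegral_congr_fun (measurableSet_dom h) h1] at key
  have hfu : Continuous (fderiv ℝ u) := hu.continuous_fderiv (by norm_num)
  have hcb : Continuous fun x => ‖be (fderiv ℝ u x)‖ ^ 2 := by
    unfold be
    have e1 : Continuous fun x => fderiv ℝ u x 1 := hfu.clm_apply continuous_const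
    have e2 : Continuous fun x => fderiv ℝ u x I := hfu.clm_apply continuous_const
    fun_prop
  have hcc : Continuous fun x => (curl u x / 2 - Ω) ^ 2 := by
    unfold curl
    have e1 : Continuous fun x => fderiv ℝ u x 1 := hfu.clm_apply continuous_const
    have e2 : Continuous fun x => fderiv ℝ u x I := hfu.clm_apply continuous_const
    fun_prop
  rw [integral_sub (integrableOn_dom h _ hcc) (integrableOn_dom h _ hcb)] at key
  linarith

end Pool.Agent.Helper5.VL
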