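import Pool.Agent.Helper5.VL.Lift
import Pool.Agent.Helper5.VL.Strain
import Pool.Agent.Helper5.VL.Num

/-!
VL-6. Assembly: the vorticity of a connecting flow is bounded in `L¹` modulo rigid rotations.
-/

set_option autoImplicit false

namespace Pool.Agent.Helper5.VL

open Complex MeasureTheory Set Pool.Agent.Helper61.EF ComplexConjugate

theorem particle {ρ : ℝ → ℝ} {T : ℝ} (h : IsRadial ρ) (hT : 0 < T) (F : PerfectFlow ρ T) {θ₀ ε M : ℝ}
    (hε : 0 < ε) (hε1 : ε ≤ 1) (hM : 1 ≤ M)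
    (htr : ∀ x ∈ dom ρ, -1 + ε ≤ (Zt F θ₀ x).re)
    (hn : ∀ x ∈ dom ρ, ‖Ag F T x‖ ≤ M) :
    ∃ k : ℤ, (∀ a ∈ dom ρ, |phg F a - θ₀ - 2 * Real.pi * k| < Real.pi) ∧ ∀ a ∈ dom ρ,
      (curl (F.u 0) a * T / 2 - θ₀ - 2 * Real.pi * k) ^ 2 +
        ε / M * |curl (F.u 0) a * T / 2 - θ₀ - 2 * Real.pi * k| - KK (ε / (4 * M)) ≤
      (∫ s in (0 : ℝ)..T, ‖Sg F s a‖) ^ 2 := by
  have hM0 : 0 < M := by linarith
  have hpi := Real.pi_gt_three
  have hη : 0 < ε / (4 * M) := by positivity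
  have hη1 : ε / (4 * M) ≤ Real.pi / 4 := by
    rw [div_le_iff₀ (by positivity)]
    nlinarith
  obtain ⟨k, hk⟩ := lift_const h hT F θ₀ fun a ha => by linarith [htr a ha]
  have hTT : T ∈ Icc (0 : ℝ) T := ⟨hT.le, le_rfl⟩
  have hgap' : ∀ a ∈ dom ρ, |Complex.arg (Zt F θ₀ a)| + Real.arctan ‖Bg F T a‖ ≤ Real.pi - ε / M := by
    intro a ha
    have p := grad_path h hT F ha
    refine ang_gap (α := Zt F θ₀ a) (β := Bg F T a) hε ?_ ?_ (htr a ha)
    · rw [norm_Zt]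
      exact hn a ha
    · rw [norm_Zt]
      exact p.hdet T hTT
  refine ⟨k, fun a ha => ?_, fun a ha => ?_⟩
  · rw [hk a ha]
    have h1 : Complex.arg (Zt F θ₀ a) + θ₀ + 2 * Real.pi * k - θ₀ - 2 * Real.pi * k =
        Complex.arg (Zt F θ₀ a) := by ring
    rw [h1]
    have h2 := hgap' a ha
    have h3 := Real.arctan_nonneg.2 (norm_nonneg (Bg F T a))
    have h4 : 0 < ε / M := by positivity
    linarith
  have p := grad_path h hT F ha
  have hka := hk a ha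
  set w := curl (F.u 0) a with hw
  set Θ := Complex.arg (Zt F θ₀ a) with hΘ
  have hy : |w * T / 2 - θ₀ - 2 * Real.pi * k| - |Θ| ≤ |w * T / 2 - phg F a| := by
    rw [hka]
    have h1 := abs_sub_abs_le_abs_sub (w * T / 2 - θ₀ - 2 * Real.pi * k) Θ
    have h2 : w * T / 2 - (Θ + θ₀ + 2 * Real.pi * k) = w * T / 2 - θ₀ - 2 * Real.pi * k - Θ := by ring
    rw [h2]
    exact h1
  have hgap : |Θ| + Real.arctan ‖Bg F T a‖ ≤ Real.pi - 4 * (ε / (4 * M)) := by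
    have h1 := hgap' a ha
    have h2 : 4 * (ε / (4 * M)) = ε / M := by field_simp
    rw [h2]
    exact h1
  have hS : 0 ≤ ∫ s in (0 : ℝ)..T, ‖Sg F s a‖ :=
    intervalIntegral.integral_nonneg hT.le fun s _ => norm_nonneg _
  have halt : |w * T / 2 - phg F a| + 2 * (Real.pi / 2 - ε / (4 * M)) - Real.arctan ‖Bg F T a‖ ≤
      (∫ s in (0 : ℝ)..T, ‖Sg F s a‖) ∨
      |w * T / 2 - phg F a| ≤ (∫ s in (0 : ℝ)..T, ‖Sg F s a‖) * Real.cos (ε / (4 * M)) := by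
    by_cases hex : ∃ t₀ ∈ Icc (0 : ℝ) T, Real.pi / 2 - ε / (4 * M) ≤ Real.arctan ‖Bg F t₀ a‖
    · left
      obtain ⟨t₀, ht₀, h3⟩ := hex
      have h4 := path_gain p ht₀
      have h5 : ph w (fun t => Ag F t a) (fun t => Bg F t a) (fun t => Sg F t a) T = phg F a := rfl
      rw [h5] at h4
      linarith
    · right
      push Not at hex
      have h4 := path_small p (Real.cos (ε / (4 * M))) fun t ht => by
        have h5 := hex t ht
        have h6 : Real.sin (Real.arctan ‖Bg F t a‖) ≤ Real.sin (Real.pi / 2 - ε / (4 * M)) :=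
          Real.sin_le_sin_of_le_of_le_pi_div_two
            (by linarith [Real.neg_pi_div_two_lt_arctan ‖Bg F t a‖]) (by linarith) h5.le
        rw [Real.sin_pi_div_two_sub, Real.sin_arctan] at h6
        have hd := p.hdet t ht
        have h7 : 1 + ‖Bg F t a‖ ^ 2 = ‖Ag F t a‖ ^ 2 := by linarith
        rw [h7, Real.sqrt_sq (norm_nonneg _)] at h6
        have h8 : 0 < ‖Ag F t a‖ := by
          have h9 : 1 ≤ ‖Ag F t a‖ ^ 2 := by nlinarith [sq_nonneg ‖Bg F t a‖]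
          by_contra hcon
          push Not at hcon
          have h10 : ‖Ag F t a‖ = 0 := le_antisymm hcon (norm_nonneg _)
          rw [h10] at h9
          norm_num at h9
        rwa [div_le_iff₀ h8] at h6
      have h5 : ph w (fun t => Ag F t a) (fun t => Bg F t a) (fun t => Sg F t a) T = phg F a := rfl
      rw [h5] at h4
      exact h4.trans_eq (mul_comm _ _)
  have hfin := num hη hη1 hS (Real.arctan_nonneg.2 (norm_nonneg (Bg F T a))) hy hgap halt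
  have h2 : 4 * (ε / (4 * M)) = ε / M := by field_simp
  rw [h2] at hfin
  exact hfin

theorem strain_total {ρ : ℝ → ℝ} {T : ℝ} (h : IsRadial ρ) (hρ2 : ContDiff ℝ 2 ρ) (hq : ∀ θ, 0 < cv ρ θ)
    (hT : 0 < T) (F : PerfectFlow ρ T) (c₀ : ℝ) :
    ∫ a in dom ρ, (∫ s in (0 : ℝ)..T, ‖Sg F s a‖) ^ 2 ≤
      (∫ a in dom ρ, (curl (F.u 0) a * T / 2 - c₀) ^ 2) + c₀ ^ 2 * dl ρ := by
  have hSc : Continuous (fun q : ℝ × ℂ => ‖Sg F q.1 q.2‖) := (Sg_continuous F).norm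
  have hsw : Continuous (fun q : ℂ × ℝ => (q.2, q.1)) := continuous_swap
  have hu1 : Continuous (Function.uncurry fun (a : ℂ) (s : ℝ) => ‖Sg F s a‖) := hSc.comp hsw
  have hc1 : Continuous fun a => (∫ s in (0 : ℝ)..T, ‖Sg F s a‖) ^ 2 :=
    (intervalIntegral.continuous_parametric_intervalIntegral_of_continuous' hu1 0 T).pow 2
  have hSc2 : Continuous (fun q : ℝ × ℂ => ‖Sg F q.1 q.2‖ ^ 2) := hSc.pow 2
  have hu2' : Continuous (fun q : ℂ × ℝ => ‖Sg F q.2 q.1‖) := hSc.comp hsw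
  have hu2 : Continuous (Function.uncurry fun (a : ℂ) (s : ℝ) => ‖Sg F s a‖ ^ 2) := by
    unfold Function.uncurry
    exact hu2'.pow 2
  have hc2 : Continuous fun a => ∫ s in (0 : ℝ)..T, ‖Sg F s a‖ ^ 2 :=
    intervalIntegral.continuous_parametric_intervalIntegral_of_continuous' hu2 0 T
  -- Cauchy-Schwarz in time
  have hcs : ∀ a : ℂ, (∫ s in (0 : ℝ)..T, ‖Sg F s a‖) ^ 2 ≤ T * ∫ s in (0 : ℝ)..T, ‖Sg F s a‖ ^ 2 := by
    intro a
    have hg : Continuous fun s : ℝ => ‖Sg F s a‖ := hSc.comp (continuous_id.prodMk continuous_const)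
    have h1 := cauchy_interval (fun _ => (1 : ℝ)) (fun s => ‖Sg F s a‖) continuous_const hg hT.le
    simp only [one_mul, one_pow, intervalIntegral.integral_const, sub_zero, smul_eq_mul, mul_one] at h1
    exact h1
  have h1 : ∫ a in dom ρ, (∫ s in (0 : ℝ)..T, ‖Sg F s a‖) ^ 2 ≤
      ∫ a in dom ρ, T * ∫ s in (0 : ℝ)..T, ‖Sg F s a‖ ^ 2 :=
    setIntegral_mono (integrableOn_dom h _ hc1) (integrableOn_dom h _ (continuous_const.mul hc2)) hcs
  refine h1.trans ?_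
  rw [integral_const_mul, fubini_dom h (fun t x => ‖Sg F t x‖ ^ 2) hSc2 0 T]
  -- each time slice
  set Ω : ℝ := c₀ / T with hΩ
  have h2 : ∀ t ∈ Icc (0 : ℝ) T, ∫ x in dom ρ, ‖Sg F t x‖ ^ 2 ≤
      (∫ x in dom ρ, (curl (F.u 0) x / 2 - Ω) ^ 2) + Ω ^ 2 * dl ρ := by
    intro t ht
    have h3 : ∫ x in dom ρ, ‖Sg F t x‖ ^ 2 =
        ∫ x in dom ρ, ‖be (fderiv ℝ (F.u t) x)‖ ^ 2 :=
      push h F ht fun x => ‖be (fderiv ℝ (F.u t) x)‖ ^ 2
    have h4 := strain_le h hρ2 hq (F.u t) (F.smooth_u.comp (contDiff_prodMk_right t))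
      (F.div_free t ht) (F.tangent t ht) Ω
    have h5 : ∫ x in dom ρ, (curl (F.u t) x / 2 - Ω) ^ 2 =
        ∫ x in dom ρ, (curl (F.u 0) x / 2 - Ω) ^ 2 := by
      rw [← push h F ht fun x => (curl (F.u t) x / 2 - Ω) ^ 2]
      refine setIntegral_congr_fun (measurableSet_dom h) fun a ha => ?_
      rw [curl_transport h F ht ha]
    rw [h3, ← h5]
    exact h4
  have hc3 : Continuous fun t => ∫ x in dom ρ, ‖Sg F t x‖ ^ 2 :=
    continuous_integral_dom h (fun t x => ‖Sg F t x‖ ^ 2) hSc2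
  have h6 : ∫ t in (0 : ℝ)..T, ∫ x in dom ρ, ‖Sg F t x‖ ^ 2 ≤
      ∫ _t in (0 : ℝ)..T, ((∫ x in dom ρ, (curl (F.u 0) x / 2 - Ω) ^ 2) + Ω ^ 2 * dl ρ) :=
    intervalIntegral.integral_mono_on hT.le (hc3.intervalIntegrable _ _)
      (continuous_const.intervalIntegrable _ _) h2
  rw [intervalIntegral.integral_const, sub_zero, smul_eq_mul] at h6
  have hTΩ : T * Ω = c₀ := by
    rw [hΩ]
    field_simp
  have h7 : ∫ a in dom ρ, (curl (F.u 0) a * T / 2 - c₀) ^ 2 =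
      T * (T * ∫ x in dom ρ, (curl (F.u 0) x / 2 - Ω) ^ 2) := by
    rw [← mul_assoc, ← integral_const_mul]
    refine setIntegral_congr_fun (measurableSet_dom h) fun a _ => ?_
    show (curl (F.u 0) a * T / 2 - c₀) ^ 2 = T * T * (curl (F.u 0) a / 2 - Ω) ^ 2
    rw [← hTΩ]
    ring
  rw [h7]
  have h8 := mul_le_mul_of_nonneg_left h6 hT.le
  refine h8.trans (le_of_eq ?_)
  rw [← hTΩ]
  ring

theorem vorticity_L1 {ρ : ℝ → ℝ} {T : ℝ} (h : IsRadial ρ) (hρ2 : ContDiff ℝ 2 ρ) (hq : ∀ θ, 0 < cv ρ θ)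
    (hT : 0 < T) (F : PerfectFlow ρ T) {θ₀ ε M : ℝ} (hε : 0 < ε)
    (hε1 : ε ≤ 1) (hM : 1 ≤ M)
    (htr : ∀ x ∈ dom ρ, -1 + ε ≤ (Zt F θ₀ x).re)
    (hn : ∀ x ∈ dom ρ, ‖Ag F T x‖ ≤ M) :
    ∃ k : ℤ, (∀ a ∈ dom ρ, |phg F a - θ₀ - 2 * Real.pi * k| < Real.pi) ∧
      ∫ a in dom ρ, |T * curl (F.u 0) a - 2 * θ₀ - 4 * Real.pi * k| ≤
      2 * M / ε * (KK (ε / (4 * M)) * (∫ _x in dom ρ, (1 : ℝ)) + (θ₀ + 2 * Real.pi * k) ^ 2 * dl ρ) := by
  have hM0 : 0 < M := by linarith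
  obtain ⟨k, hkk, hk⟩ := particle h hT F hε hε1 hM htr hn
  refine ⟨k, hkk, ?_⟩
  have hcc := curl_continuous F
  have hcW : Continuous fun a => curl (F.u 0) a * T / 2 - θ₀ - 2 * Real.pi * k := by fun_prop
  have hSc : Continuous (fun q : ℝ × ℂ => ‖Sg F q.1 q.2‖) := (Sg_continuous F).norm
  have hsw : Continuous (fun q : ℂ × ℝ => (q.2, q.1)) := continuous_swap
  have hu1 : Continuous (Function.uncurry fun (a : ℂ) (s : ℝ) => ‖Sg F s a‖) := hSc.comp hsw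
  have hc1 : Continuous fun a => (∫ s in (0 : ℝ)..T, ‖Sg F s a‖) ^ 2 :=
    (intervalIntegral.continuous_parametric_intervalIntegral_of_continuous' hu1 0 T).pow 2
  have hc2 : Continuous fun a => (curl (F.u 0) a * T / 2 - θ₀ - 2 * Real.pi * k) ^ 2 +
      ε / M * |curl (F.u 0) a * T / 2 - θ₀ - 2 * Real.pi * k| - KK (ε / (4 * M)) :=
    ((hcW.pow 2).add (continuous_const.mul hcW.abs)).sub continuous_const
  have h1 : ∫ a in dom ρ, ((curl (F.u 0) a * T / 2 - θ₀ - 2 * Real.pi * k) ^ 2 +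
      ε / M * |curl (F.u 0) a * T / 2 - θ₀ - 2 * Real.pi * k| - KK (ε / (4 * M))) ≤
      ∫ a in dom ρ, (∫ s in (0 : ℝ)..T, ‖Sg F s a‖) ^ 2 :=
    setIntegral_mono_on (integrableOn_dom h _ hc2) (integrableOn_dom h _ hc1) (measurableSet_dom h) hk
  have h2 := h1.trans (strain_total h hρ2 hq hT F (θ₀ + 2 * Real.pi * k))
  have hsub : ∀ a : ℂ, curl (F.u 0) a * T / 2 - (θ₀ + 2 * Real.pi * k) =
      curl (F.u 0) a * T / 2 - θ₀ - 2 * Real.pi * k := fun a => by ring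
  simp only [hsub] at h2
  have hi1 : IntegrableOn (fun a => (curl (F.u 0) a * T / 2 - θ₀ - 2 * Real.pi * k) ^ 2) (dom ρ) :=
    integrableOn_dom h _ (hcW.pow 2)
  have hi2 : IntegrableOn (fun a => ε / M * |curl (F.u 0) a * T / 2 - θ₀ - 2 * Real.pi * k|)
      (dom ρ) := integrableOn_dom h _ (continuous_const.mul hcW.abs)
  have hi3 : IntegrableOn (fun a => (curl (F.u 0) a * T / 2 - θ₀ - 2 * Real.pi * k) ^ 2 +
      ε / M * |curl (F.u 0) a * T / 2 - θ₀ - 2 * Real.pi * k|) (dom ρ) := hi1.add hi2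
  have hi4 : IntegrableOn (fun _ : ℂ => KK (ε / (4 * M))) (dom ρ) :=
    integrableOn_dom h _ continuous_const
  rw [integral_sub hi3 hi4, integral_add hi1 hi2, integral_const_mul] at h2
  have harea : ∫ _x in dom ρ, KK (ε / (4 * M)) = KK (ε / (4 * M)) * ∫ _x in dom ρ, (1 : ℝ) := by
    rw [← integral_const_mul]
    simp
  rw [harea] at h2
  have h4 : ε / M * ∫ a in dom ρ, |curl (F.u 0) a * T / 2 - θ₀ - 2 * Real.pi * k| ≤
      KK (ε / (4 * M)) * (∫ _x in dom ρ, (1 : ℝ)) + (θ₀ + 2 * Real.pi * k) ^ 2 * dl ρ := by linarith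
  have h5 : ∫ a in dom ρ, |T * curl (F.u 0) a - 2 * θ₀ - 4 * Real.pi * k| =
      2 * ∫ a in dom ρ, |curl (F.u 0) a * T / 2 - θ₀ - 2 * Real.pi * k| := by
    rw [← integral_const_mul]
    refine setIntegral_congr_fun (measurableSet_dom h) fun a _ => ?_
    have h6 : T * curl (F.u 0) a - 2 * θ₀ - 4 * Real.pi * k =
        2 * (curl (F.u 0) a * T / 2 - θ₀ - 2 * Real.pi * k) := by
      ring
    show |T * curl (F.u 0) a - 2 * θ₀ - 4 * Real.pi * k| =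
      2 * |curl (F.u 0) a * T / 2 - θ₀ - 2 * Real.pi * k|
    rw [h6, abs_mul, abs_of_pos (by norm_num : (0 : ℝ) < 2)]
  rw [h5]
  have h7 : (∫ a in dom ρ, |curl (F.u 0) a * T / 2 - θ₀ - 2 * Real.pi * k|) =
      M / ε * (ε / M * ∫ a in dom ρ, |curl (F.u 0) a * T / 2 - θ₀ - 2 * Real.pi * k|) := by
    have h8 : M / ε * (ε / M) = 1 := by field_simp
    rw [← mul_assoc, h8, one_mul]
  rw [h7]
  have h8 : 0 ≤ M / ε := by positivity
  calc 2 * (M / ε * (ε / M * ∫ a in dom ρ, |curl (F.u 0) a * T / 2 - θ₀ - 2 * Real.pi * k|))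
      ≤ 2 * (M / ε * (KK (ε / (4 * M)) * (∫ _x in dom ρ, (1 : ℝ)) +
          (θ₀ + 2 * Real.pi * k) ^ 2 * dl ρ)) := by
        have := mul_le_mul_of_nonneg_left h4 h8
        linarith
    _ = 2 * M / ε * (KK (ε / (4 * M)) * (∫ _x in dom ρ, (1 : ℝ)) +
          (θ₀ + 2 * Real.pi * k) ^ 2 * dl ρ) := by ring

end Pool.Agent.Helper5.VL
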