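import Pool.Agent.Helper5.VL.Defs

/-!
VL-1. Paths in `SL₂(ℝ)` with constant rotation rate `w/2`. `α, β` are the conformal and anticonformal parts of the path,
`α' = (i w/2) α + σ conj β`, `β' = (i w/2) β + σ conj α`, `|α|² - |β|² = 1`, `α 0 = 1`, `β 0 = 0`.
`ph t = ∫₀ᵗ (w/2 + Im (σ conj β / α))` is the continuous argument of `α`.

PROOFS.
* `path_alpha`: `α(t) exp(-∫₀ᵗ q) = 1` with `q = i w/2 + σ conj β/α` (derivative 0, `α ≠ 0` since `|α| ≥ 1`), and `Im ∫₀ᵗ q = ph t`.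
* `path_gain`: put `X = Re(σ conj α conj β)`, `Y = Im(σ conj α conj β)`, `A = |α|²`, `b = |β|² = A - 1`. For `ε > 0` let
  `N(t) = arctan √(|β|² + ε²)`. Then `N' = X/((A + ε²) √(b + ε²))` (note `Re(β' conj β) = X`) and `Im(σ conj β/α) = Y/A`.
  POINTWISE: `|N'| + |Y|/A ≤ ‖σ‖` (if `b = 0` then `X = Y = 0`; else `|N'| ≤ |X|/(A√b)` and
  `(|X|/√b + |Y|)² ≤ (X² + Y²)(1/b + 1) = ‖σ‖² A²`). So for `s = ±1` both `∫₀ᵗ (‖σ‖ + s Im(σ conj β/α)) ∓ N(t)` are monotone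
  (derivative `≥ 0`), and `∫₀ᵀ(‖σ‖ + s Im(..)) ≥ 2 N(t₀) - N(0) - N(T)`. Let `ε → 0`.
  Finally `∫₀ᵀ Im(σ conj β/α) = ph T - w T/2`.
* `path_small`: `|Im(σ conj β/α)| ≤ ‖σ‖ ‖β‖/‖α‖ ≤ c ‖σ‖`.
-/

set_option autoImplicit false

namespace Pool.Agent.Helper5.VL

open Complex MeasureTheory Set Pool.Agent.Helper61.EF ComplexConjugate

/-- A path in `SL₂(ℝ)` starting at the identity with rotation rate `w/2` and strain `σ`. -/
structure IsPath (T w : ℝ) (α β σ : ℝ → ℂ) : Prop where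
  pos : 0 < T
  hα : ∀ t ∈ Icc (0 : ℝ) T, HasDerivAt α (((w / 2 : ℝ) : ℂ) * I * α t + σ t * conj (β t)) t
  hβ : ∀ t ∈ Icc (0 : ℝ) T, HasDerivAt β (((w / 2 : ℝ) : ℂ) * I * β t + σ t * conj (α t)) t
  hσ : Continuous σ
  cα : Continuous α
  cβ : Continuous β
  h1 : α 0 = 1
  h0 : β 0 = 0
  hdet : ∀ t ∈ Icc (0 : ℝ) T, ‖α t‖ ^ 2 - ‖β t‖ ^ 2 = 1

/-- The continuous argument of `α`. -/
noncomputable def ph (w : ℝ) (α β σ : ℝ → ℂ) (t : ℝ) : ℝ :=
  ∫ s in (0 : ℝ)..t, (w / 2 + (σ s * conj (β s) / α s).im)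

variable {T w : ℝ} {α β σ : ℝ → ℂ}

private lemma alpha_ge (h : IsPath T w α β σ) {t : ℝ} (ht : t ∈ Icc (0 : ℝ) T) : 1 ≤ ‖α t‖ := by
  have h1 := h.hdet t ht
  nlinarith [norm_nonneg (α t), sq_nonneg ‖β t‖]

private lemma alpha_ne (h : IsPath T w α β σ) {t : ℝ} (ht : t ∈ Icc (0 : ℝ) T) : α t ≠ 0 := by
  have := alpha_ge h ht
  exact norm_pos_iff.1 (by linarith)

private lemma q_cont (h : IsPath T w α β σ) :
    ContinuousOn (fun s => σ s * conj (β s) / α s) (Icc (0 : ℝ) T) :=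
  (h.hσ.mul (Complex.continuous_conj.comp h.cβ)).continuousOn.div h.cα.continuousOn
    fun _ hs => alpha_ne h hs

/-- A continuous function which is `σ conj β / α` on `[0, T]`. -/
private lemma q_ext (h : IsPath T w α β σ) :
    ∃ q : ℝ → ℂ, Continuous q ∧ ∀ s ∈ Icc (0 : ℝ) T, q s = σ s * conj (β s) / α s := by
  refine ⟨IccExtend h.pos.le ((Icc (0 : ℝ) T).domRestrict fun s => σ s * conj (β s) / α s), ?_, ?_⟩
  · exact (continuousOn_iff_continuous_domRestrict.1 (q_cont h)).Icc_extend'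
  · intro s hs
    rw [IccExtend_of_mem _ _ hs]
    rfl

private lemma ph_eq (h : IsPath T w α β σ) {q : ℝ → ℂ}
    (hq : ∀ s ∈ Icc (0 : ℝ) T, q s = σ s * conj (β s) / α s) {t : ℝ} (ht : t ∈ Icc (0 : ℝ) T) :
    ph w α β σ t = ∫ s in (0 : ℝ)..t, (w / 2 + (q s).im) := by
  unfold ph
  refine intervalIntegral.integral_congr fun s hs => ?_
  rw [uIcc_of_le ht.1] at hs
  rw [hq s ⟨hs.1, hs.2.trans ht.2⟩]

theorem path_alpha {T w : ℝ} {α β σ : ℝ → ℂ} (h : IsPath T w α β σ) {t : ℝ} (ht : t ∈ Icc (0 : ℝ) T) :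
    α t = (‖α t‖ : ℂ) * Complex.exp ((ph w α β σ t : ℂ) * I) := by
  obtain ⟨q, hqc, hq⟩ := q_ext h
  set q1 : ℝ → ℂ := fun s => ((w / 2 : ℝ) : ℂ) * I + q s with hq1
  have hq1c : Continuous q1 := continuous_const.add hqc
  set Q : ℝ → ℂ := fun t => ∫ s in (0 : ℝ)..t, q1 s with hQ
  have hQd : ∀ t, HasDerivAt Q (q1 t) t := fun t =>
    intervalIntegral.integral_hasDerivAt_right (hq1c.intervalIntegrable _ _)
      (hq1c.stronglyMeasurableAtFilter _ _) hq1c.continuousAt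
  have hQc : Continuous Q := continuous_iff_continuousAt.2 fun t => (hQd t).continuousAt
  have key : ∀ t ∈ Icc (0 : ℝ) T, α t * Complex.exp (-Q t) = α 0 * Complex.exp (-Q 0) := by
    refine constant_of_has_deriv_right_zero (h.cα.mul hQc.neg.cexp).continuousOn fun t ht => ?_
    have ht' : t ∈ Icc (0 : ℝ) T := ⟨ht.1, ht.2.le⟩
    have h3 := (h.hα t ht').mul (hQd t).neg.cexp
    refine (h3.congr_deriv ?_).hasDerivWithinAt
    have hne := alpha_ne h ht'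
    rw [hq1]
    simp only
    rw [hq t ht']
    field_simp
    ring
  have h5 : α t = Complex.exp (Q t) := by
    have h6 := key t ht
    have h7 : Q 0 = 0 := by simp [hQ]
    rw [h7, h.h1, neg_zero, Complex.exp_zero, mul_one, Complex.exp_neg] at h6
    have h8 := Complex.exp_ne_zero (Q t)
    field_simp at h6
    exact h6
  have h6 : (Q t).im = ph w α β σ t := by
    rw [ph_eq h hq ht]
    have h7 := Complex.imCLM.intervalIntegral_comp_comm (hq1c.intervalIntegrable (μ := volume) 0 t)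
    simp only [Complex.imCLM_apply] at h7
    rw [hQ]
    simp only
    rw [← h7]
    refine intervalIntegral.integral_congr fun s _ => ?_
    simp [hq1]
  rw [← h6, h5, Complex.norm_exp]
  conv_lhs => rw [← Complex.re_add_im (Q t), Complex.exp_add]
  rw [Complex.ofReal_exp]

private lemma ph_diff (h : IsPath T w α β σ) {q : ℝ → ℂ} (hqc : Continuous q)
    (hq : ∀ s ∈ Icc (0 : ℝ) T, q s = σ s * conj (β s) / α s) :
    w * T / 2 - ph w α β σ T = -∫ s in (0 : ℝ)..T, (q s).im := by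
  have h1 := intervalIntegral.integral_add (μ := volume) (f := fun _ : ℝ => w / 2) (g := fun s => (q s).im)
    (continuous_const.intervalIntegrable 0 T) ((Complex.continuous_im.comp hqc).intervalIntegrable 0 T)
  rw [ph_eq h hq ⟨h.pos.le, le_rfl⟩, h1]
  simp only [intervalIntegral.integral_const, sub_zero, smul_eq_mul]
  ring

theorem path_small {T w : ℝ} {α β σ : ℝ → ℂ} (h : IsPath T w α β σ) (c : ℝ)
    (hc : ∀ t ∈ Icc (0 : ℝ) T, ‖β t‖ ≤ c * ‖α t‖) :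
    |w * T / 2 - ph w α β σ T| ≤ c * ∫ s in (0 : ℝ)..T, ‖σ s‖ := by
  obtain ⟨q, hqc, hq⟩ := q_ext h
  rw [ph_diff h hqc hq, abs_neg, ← intervalIntegral.integral_const_mul]
  have h1 : |∫ s in (0 : ℝ)..T, (q s).im| ≤ ∫ s in (0 : ℝ)..T, |(q s).im| :=
    intervalIntegral.abs_integral_le_integral_abs h.pos.le
  refine h1.trans ?_
  refine intervalIntegral.integral_mono_on h.pos.le
    ((Complex.continuous_im.comp hqc).abs.intervalIntegrable _ _)
    ((continuous_const.mul h.hσ.norm).intervalIntegrable _ _) fun s hs => ?_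
  refine (Complex.abs_im_le_norm (q s)).trans ?_
  rw [hq s hs, norm_div, norm_mul, Complex.norm_conj]
  have h2 := alpha_ge h hs
  rw [div_le_iff₀ (by linarith)]
  nlinarith [hc s hs, norm_nonneg (σ s)]

/-- The pointwise inequality. -/
private lemma pt_ineq {s a b : ℂ} {X N : ℝ} {ε : ℝ} (hab : ‖a‖ ^ 2 - ‖b‖ ^ 2 = 1)
    (hX : X = (s * conj a * conj b).re)
    (hN : N = X / ((‖a‖ ^ 2 + ε ^ 2) * Real.sqrt (‖b‖ ^ 2 + ε ^ 2))) (hε : 0 < ε) :
    |N| + |(s * conj b / a).im| ≤ ‖s‖ := by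
  have ha1 : 1 ≤ ‖a‖ := by nlinarith [norm_nonneg a, sq_nonneg ‖b‖]
  have hane : a ≠ 0 := norm_pos_iff.1 (by linarith)
  set Y := (s * conj a * conj b).im with hY
  have hXY : X ^ 2 + Y ^ 2 = ‖s‖ ^ 2 * ‖a‖ ^ 2 * ‖b‖ ^ 2 := by
    have h1 : ‖s * conj a * conj b‖ ^ 2 = X ^ 2 + Y ^ 2 := by
      rw [hX, hY, ← Complex.normSq_eq_norm_sq, Complex.normSq_apply]
      ring
    rw [← h1, norm_mul, norm_mul, Complex.norm_conj, Complex.norm_conj]
    ring
  have him : (s * conj b / a).im = Y / ‖a‖ ^ 2 := by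
    have h1 : s * conj b / a = (s * conj a * conj b) / ((‖a‖ ^ 2 : ℝ) : ℂ) := by
      have h2 : ((‖a‖ ^ 2 : ℝ) : ℂ) = a * conj a := by
        rw [Complex.mul_conj, Complex.normSq_eq_norm_sq]
      rw [h2]
      have h3 : conj a ≠ 0 := (map_ne_zero _).2 hane
      field_simp
    rw [h1, Complex.div_ofReal_im]
  rw [him]
  have hA : 0 < ‖a‖ ^ 2 := by positivity
  rcases eq_or_lt_of_le (norm_nonneg b) with hb | hb
  · rw [← hb] at hXY
    have hX0 : X = 0 := by nlinarith [sq_nonneg X, sq_nonneg Y]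
    have hY0 : Y = 0 := by nlinarith [sq_nonneg X, sq_nonneg Y]
    rw [hN, hX0, hY0]
    simp
  · have hN1 : |N| ≤ |X| / (‖a‖ ^ 2 * ‖b‖) := by
      rw [hN, abs_div]
      refine div_le_div_of_nonneg_left (abs_nonneg X) (by positivity) ?_
      rw [abs_of_nonneg (by positivity)]
      refine mul_le_mul (by nlinarith [sq_nonneg ε]) ?_ hb.le (by positivity)
      rw [show ‖b‖ = Real.sqrt (‖b‖ ^ 2) by rw [Real.sqrt_sq hb.le]]
      refine Real.sqrt_le_sqrt ?_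
      rw [Real.sqrt_sq hb.le]
      nlinarith [sq_nonneg ε]
    have hY1 : |Y / ‖a‖ ^ 2| = |Y| / ‖a‖ ^ 2 := by rw [abs_div, abs_of_pos hA]
    rw [hY1]
    have h4 : |X| / (‖a‖ ^ 2 * ‖b‖) + |Y| / ‖a‖ ^ 2 ≤ ‖s‖ := by
      have h5 : |X| / (‖a‖ ^ 2 * ‖b‖) + |Y| / ‖a‖ ^ 2 = (|X| + |Y| * ‖b‖) / (‖a‖ ^ 2 * ‖b‖) := by
        field_simp
      rw [h5, div_le_iff₀ (by positivity)]
      refine abs_le_of_sq_le_sq' ?_ (by positivity) |>.2
      have h6 : (|X| + |Y| * ‖b‖) ^ 2 ≤ (|X| ^ 2 + |Y| ^ 2) * (1 + ‖b‖ ^ 2) := by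
        nlinarith [sq_nonneg (|X| * ‖b‖ - |Y|)]
      rw [sq_abs, sq_abs, hXY] at h6
      have h7 : 1 + ‖b‖ ^ 2 = ‖a‖ ^ 2 := by linarith
      rw [h7] at h6
      calc (|X| + |Y| * ‖b‖) ^ 2 ≤ ‖s‖ ^ 2 * ‖a‖ ^ 2 * ‖b‖ ^ 2 * ‖a‖ ^ 2 := h6
        _ = (‖s‖ * (‖a‖ ^ 2 * ‖b‖)) ^ 2 := by ring
    linarith

/-- The regularised distance. -/
private noncomputable def Ne (β : ℝ → ℂ) (ε t : ℝ) : ℝ := Real.arctan (Real.sqrt (‖β t‖ ^ 2 + ε ^ 2))

private lemma Ne_deriv (h : IsPath T w α β σ) {ε : ℝ} (hε : 0 < ε) {t : ℝ} (ht : t ∈ Icc (0 : ℝ) T) :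
    HasDerivAt (Ne β ε) ((σ t * conj (α t) * conj (β t)).re /
      ((‖α t‖ ^ 2 + ε ^ 2) * Real.sqrt (‖β t‖ ^ 2 + ε ^ 2))) t := by
  have hb := h.hβ t ht
  have h1 : HasDerivAt (fun s => ‖β s‖ ^ 2 + ε ^ 2) (2 * (σ t * conj (α t) * conj (β t)).re) t := by
    have h2 := (hb.norm_sq).add_const (ε ^ 2)
    refine h2.congr_deriv ?_
    rw [Complex.inner]
    congr 1
    simp only [add_re, mul_re, mul_im, conj_re, conj_im, I_re, I_im, ofReal_re, ofReal_im,
      mul_zero, mul_one, zero_mul, sub_zero, zero_sub, zero_add, add_im, add_zero]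
    ring
  have hpos : 0 < ‖β t‖ ^ 2 + ε ^ 2 := by positivity
  have h3 := (h1.sqrt hpos.ne').arctan
  unfold Ne
  refine h3.congr_deriv ?_
  rw [Real.sq_sqrt hpos.le]
  have h4 := h.hdet t ht
  have h5 : 1 + (‖β t‖ ^ 2 + ε ^ 2) = ‖α t‖ ^ 2 + ε ^ 2 := by linarith
  rw [h5]
  have h6 : 0 < Real.sqrt (‖β t‖ ^ 2 + ε ^ 2) := Real.sqrt_pos.2 hpos
  have h7 : 0 < ‖α t‖ ^ 2 + ε ^ 2 := by positivity
  field_simp

private lemma gain_aux (h : IsPath T w α β σ) {q : ℝ → ℂ} (hqc : Continuous q)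
    (hq : ∀ s ∈ Icc (0 : ℝ) T, q s = σ s * conj (β s) / α s) (e c : ℝ) (he : |e| ≤ 1) (hc : |c| ≤ 1)
    {ε : ℝ} (hε : 0 < ε) {a b : ℝ} (ha : 0 ≤ a) (hab : a ≤ b) (hb : b ≤ T) :
    c * (Ne β ε b - Ne β ε a) ≤ ∫ s in a..b, (‖σ s‖ - e * (q s).im) := by
  set r : ℝ → ℝ := fun s => ‖σ s‖ - e * (q s).im with hr
  have hrc : Continuous r := h.hσ.norm.sub (continuous_const.mul (Complex.continuous_im.comp hqc))
  set G : ℝ → ℝ := fun t => (∫ s in a..t, r s) - c * Ne β ε t with hG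
  have hsub : ∀ s ∈ Icc a b, s ∈ Icc (0 : ℝ) T := fun s hs => ⟨ha.trans hs.1, hs.2.trans hb⟩
  have hGd : ∀ t ∈ Icc a b, HasDerivAt G (r t - c * ((σ t * conj (α t) * conj (β t)).re /
      ((‖α t‖ ^ 2 + ε ^ 2) * Real.sqrt (‖β t‖ ^ 2 + ε ^ 2)))) t := by
    intro t ht
    exact (intervalIntegral.integral_hasDerivAt_right (hrc.intervalIntegrable _ _)
      (hrc.stronglyMeasurableAtFilter _ _) hrc.continuousAt).sub ((Ne_deriv h hε (hsub t ht)).const_mul c)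
  have hmono : MonotoneOn G (Icc a b) := by
    refine monotoneOn_of_deriv_nonneg (convex_Icc a b)
      (fun t ht => (hGd t ht).continuousAt.continuousWithinAt)
      (fun t ht => (hGd t (interior_subset ht)).differentiableAt.differentiableWithinAt) fun t ht => ?_
    have ht' := interior_subset ht
    rw [(hGd t ht').deriv]
    have h1 := pt_ineq (s := σ t) (a := α t) (b := β t) (ε := ε) (h.hdet t (hsub t ht')) rfl rfl hε
    set N := (σ t * conj (α t) * conj (β t)).re /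
      ((‖α t‖ ^ 2 + ε ^ 2) * Real.sqrt (‖β t‖ ^ 2 + ε ^ 2)) with hN
    rw [← hq t (hsub t ht')] at h1
    rw [hr]
    simp only
    have h2 : c * N ≤ |N| := by
      have := abs_mul c N
      nlinarith [le_abs_self (c * N), abs_nonneg N]
    have h3 : e * (q t).im ≤ |(q t).im| := by
      have := abs_mul e (q t).im
      nlinarith [le_abs_self (e * (q t).im), abs_nonneg (q t).im]
    linarith
  have h4 := hmono (left_mem_Icc.2 hab) (right_mem_Icc.2 hab) hab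
  rw [hG] at h4
  simp only [intervalIntegral.integral_same] at h4
  linarith

theorem path_gain {T w : ℝ} {α β σ : ℝ → ℂ} (h : IsPath T w α β σ) {t₀ : ℝ} (ht : t₀ ∈ Icc (0 : ℝ) T) :
    |w * T / 2 - ph w α β σ T| + 2 * Real.arctan ‖β t₀‖ - Real.arctan ‖β T‖ ≤
      ∫ s in (0 : ℝ)..T, ‖σ s‖ := by
  obtain ⟨q, hqc, hq⟩ := q_ext h
  have hqi : Continuous fun s => (q s).im := Complex.continuous_im.comp hqc
  -- for every ε
  have key : ∀ e : ℝ, |e| ≤ 1 → ∀ ε : ℝ, 0 < ε →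
      e * (w * T / 2 - ph w α β σ T) + 2 * Ne β ε t₀ - Ne β ε T - Ne β ε 0 ≤
        ∫ s in (0 : ℝ)..T, ‖σ s‖ := by
    intro e he ε hε
    have he' : |-e| ≤ 1 := by rwa [abs_neg]
    have h1 := gain_aux h hqc hq (-e) 1 he' (by norm_num) hε le_rfl ht.1 ht.2
    have h2 := gain_aux h hqc hq (-e) (-1) he' (by norm_num) hε ht.1 ht.2 le_rfl
    have hc : Continuous fun s => ‖σ s‖ - -e * (q s).im := h.hσ.norm.sub (continuous_const.mul hqi)
    have h3 := intervalIntegral.integral_add_adjacent_intervals (μ := volume)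
      (hc.intervalIntegrable 0 t₀) (hc.intervalIntegrable t₀ T)
    have h4 : ∫ s in (0 : ℝ)..T, (‖σ s‖ - -e * (q s).im) =
        (∫ s in (0 : ℝ)..T, ‖σ s‖) - -e * ∫ s in (0 : ℝ)..T, (q s).im := by
      have h5 := intervalIntegral.integral_sub (μ := volume) (f := fun s => ‖σ s‖) (g := fun s => -e * (q s).im)
        (h.hσ.norm.intervalIntegrable 0 T) ((continuous_const.mul hqi).intervalIntegrable 0 T)
      rw [h5, intervalIntegral.integral_const_mul]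
    have h5 := ph_diff h hqc hq
    rw [h4] at h3
    have h6 : ∫ s in (0 : ℝ)..T, (q s).im = -(w * T / 2 - ph w α β σ T) := by linarith
    rw [h6] at h3
    linarith
  -- let ε → 0
  have lim : ∀ t : ℝ, Filter.Tendsto (fun ε : ℝ => Ne β ε t) (nhdsWithin 0 (Ioi 0))
      (nhds (Real.arctan ‖β t‖)) := by
    intro t
    have h1 : Continuous fun ε : ℝ => Ne β ε t := by
      unfold Ne
      exact Real.continuous_arctan.comp (Real.continuous_sqrt.comp (continuous_const.add (continuous_id.pow 2)))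
    have h2 := h1.tendsto 0
    have h3 : Ne β 0 t = Real.arctan ‖β t‖ := by
      unfold Ne
      simp [Real.sqrt_sq]
    rw [h3] at h2
    exact h2.mono_left nhdsWithin_le_nhds
  have fin : ∀ e : ℝ, |e| ≤ 1 → e * (w * T / 2 - ph w α β σ T) + 2 * Real.arctan ‖β t₀‖ -
      Real.arctan ‖β T‖ ≤ ∫ s in (0 : ℝ)..T, ‖σ s‖ := by
    intro e he
    have h1 := (((lim t₀).const_mul 2).const_add (e * (w * T / 2 - ph w α β σ T))).sub (lim T) |>.sub (lim 0)
    have h2 : Real.arctan ‖β 0‖ = 0 := by simp [h.h0]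
    rw [h2, sub_zero] at h1
    refine le_of_tendsto h1 ?_
    filter_upwards [self_mem_nhdsWithin] with ε hε
    exact key e he ε hε
  rcases abs_cases (w * T / 2 - ph w α β σ T) with hh | hh
  · rw [hh.1]
    have := fin 1 (by norm_num)
    linarith
  · rw [hh.1]
    have := fin (-1) (by norm_num)
    linarith

end Pool.Agent.Helper5.VL
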